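import Mathlib

set_option autoImplicit false

/-!
# Averages over positions: the variance from pair correlations
-/

namespace Pool.Agent.Q236.QG

open Finset

lemma near_card (J : Finset ℕ) (k H : ℕ) : (J.filter (fun l => ¬(k + H ≤ l ∨ l + H ≤ k))).card ≤ 2 * H := by
  have h1 : J.filter (fun l => ¬(k + H ≤ l ∨ l + H ≤ k)) ⊆ Ico (k + 1 - H) (k + H) := by
    intro l hl
    rw [mem_filter] at hl
    rw [mem_Ico]
    obtain ⟨_, h⟩ := hl
    push Not at h
    omega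
  have h2 := card_le_card h1
  rw [Nat.card_Ico] at h2
  omega

/-- **The variance of an average over positions** -/
lemma qvar {β : Type*} (Om : Finset β) (J : Finset ℕ) (F : ℕ → β → ℝ) (m η B : ℝ) (H : ℕ) (hη : 0 ≤ η) (hm : 0 ≤ m)
    (hB : 0 ≤ B)
    (h1 : ∀ k ∈ J, |∑ c ∈ Om, F k c - Om.card * m| ≤ η * Om.card)
    (h2 : ∀ k ∈ J, ∀ l ∈ J, k + H ≤ l → |∑ c ∈ Om, F k c * F l c - Om.card * m ^ 2| ≤ η * Om.card)
    (h3 : ∀ k ∈ J, ∑ c ∈ Om, F k c ^ 2 ≤ B * Om.card) :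
    ∑ c ∈ Om, (∑ k ∈ J, (F k c - m)) ^ 2 ≤
      ((J.card : ℝ) ^ 2 * ((1 + 2 * m) * η) + J.card * (2 * H * (B + 2 * m * η))) * Om.card := by
  obtain ⟨W, hW⟩ : ∃ W : ℝ, W = (Om.card : ℝ) := ⟨_, rfl⟩
  have hW0 : 0 ≤ W := by rw [hW]; exact Nat.cast_nonneg _
  rw [← hW] at h1 h2 h3 ⊢
  have e0 : ∀ k l, ∑ c ∈ Om, (F k c - m) * (F l c - m) = ∑ c ∈ Om, F k c * F l c - m * ∑ c ∈ Om, F k c -
      m * ∑ c ∈ Om, F l c + W * m ^ 2 := by
    intro k l
    have : ∀ c ∈ Om, (F k c - m) * (F l c - m) = F k c * F l c - m * F k c - m * F l c + m ^ 2 := fun c _ => by ring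
    rw [Finset.sum_congr rfl this, Finset.sum_add_distrib, Finset.sum_sub_distrib, Finset.sum_sub_distrib,
      ← Finset.mul_sum, ← Finset.mul_sum, Finset.sum_const, nsmul_eq_mul, ← hW]
  have hfar : ∀ k ∈ J, ∀ l ∈ J, k + H ≤ l → ∑ c ∈ Om, (F k c - m) * (F l c - m) ≤ (1 + 2 * m) * η * W := by
    intro k hk l hl hkl
    rw [e0]
    have a1 := (abs_le.1 (h1 k hk)).1
    have a2 := (abs_le.1 (h1 l hl)).1
    have a3 := (abs_le.1 (h2 k hk l hl hkl)).2
    have b1 : m * (W * m - η * W) ≤ m * ∑ c ∈ Om, F k c := mul_le_mul_of_nonneg_left (by linarith) hm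
    have b2 : m * (W * m - η * W) ≤ m * ∑ c ∈ Om, F l c := mul_le_mul_of_nonneg_left (by linarith) hm
    nlinarith
  have hsq : ∀ k ∈ J, ∑ c ∈ Om, (F k c - m) ^ 2 ≤ (B + 2 * m * η) * W := by
    intro k hk
    have e1 : ∑ c ∈ Om, (F k c - m) ^ 2 = ∑ c ∈ Om, (F k c - m) * (F k c - m) :=
      Finset.sum_congr rfl fun c _ => by ring
    have e2 : ∑ c ∈ Om, F k c * F k c = ∑ c ∈ Om, F k c ^ 2 := Finset.sum_congr rfl fun c _ => by ring
    rw [e1, e0, e2]
    have a1 := (abs_le.1 (h1 k hk)).1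
    have a3 := h3 k hk
    have b1 : m * (W * m - η * W) ≤ m * ∑ c ∈ Om, F k c := mul_le_mul_of_nonneg_left (by linarith) hm
    have b2 : 0 ≤ W * m ^ 2 := by positivity
    nlinarith
  have hnear : ∀ k ∈ J, ∀ l ∈ J, ∑ c ∈ Om, (F k c - m) * (F l c - m) ≤ (B + 2 * m * η) * W := by
    intro k hk l hl
    have a1 : ∑ c ∈ Om, (F k c - m) * (F l c - m) ≤ ∑ c ∈ Om, ((F k c - m) ^ 2 / 2 + (F l c - m) ^ 2 / 2) := by
      apply Finset.sum_le_sum
      intro c _
      nlinarith [sq_nonneg (F k c - m - (F l c - m))]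
    rw [Finset.sum_add_distrib, ← Finset.sum_div, ← Finset.sum_div] at a1
    have a2 := hsq k hk
    have a3 := hsq l hl
    linarith
  have hall : ∀ k ∈ J, ∀ l ∈ J, ∑ c ∈ Om, (F k c - m) * (F l c - m) ≤ (1 + 2 * m) * η * W +
      (if ¬(k + H ≤ l ∨ l + H ≤ k) then (B + 2 * m * η) * W else 0) := by
    intro k hk l hl
    have hp : 0 ≤ (1 + 2 * m) * η * W := by positivity
    by_cases h : k + H ≤ l ∨ l + H ≤ k
    · rw [if_neg (not_not.2 h), add_zero]
      rcases h with h | h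
      · exact hfar k hk l hl h
      · have := hfar l hl k hk h
        refine le_trans (le_of_eq ?_) this
        exact Finset.sum_congr rfl fun c _ => by ring
    · rw [if_pos h]
      have := hnear k hk l hl
      linarith
  have e1 : ∑ c ∈ Om, (∑ k ∈ J, (F k c - m)) ^ 2 = ∑ k ∈ J, ∑ l ∈ J, ∑ c ∈ Om, (F k c - m) * (F l c - m) := by
    have : ∀ c ∈ Om, (∑ k ∈ J, (F k c - m)) ^ 2 = ∑ k ∈ J, ∑ l ∈ J, (F k c - m) * (F l c - m) := by
      intro c _
      rw [sq, Finset.sum_mul_sum]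
    rw [Finset.sum_congr rfl this, Finset.sum_comm]
    apply Finset.sum_congr rfl
    intro k _
    rw [Finset.sum_comm]
  rw [e1]
  calc ∑ k ∈ J, ∑ l ∈ J, ∑ c ∈ Om, (F k c - m) * (F l c - m) ≤
      ∑ k ∈ J, ∑ l ∈ J, ((1 + 2 * m) * η * W + (if ¬(k + H ≤ l ∨ l + H ≤ k) then (B + 2 * m * η) * W else 0)) :=
        Finset.sum_le_sum fun k hk => Finset.sum_le_sum fun l hl => hall k hk l hl
    _ ≤ ∑ _k ∈ J, (J.card * ((1 + 2 * m) * η * W) + 2 * H * ((B + 2 * m * η) * W)) := by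
        apply Finset.sum_le_sum
        intro k _
        rw [Finset.sum_add_distrib, Finset.sum_const, nsmul_eq_mul, ← Finset.sum_filter, Finset.sum_const, nsmul_eq_mul]
        have h4 : (((J.filter (fun l => ¬(k + H ≤ l ∨ l + H ≤ k))).card : ℕ) : ℝ) ≤ 2 * H := by
          exact_mod_cast near_card J k H
        have h5 := mul_le_mul_of_nonneg_right h4 (show 0 ≤ (B + 2 * m * η) * W by positivity)
        linarith
    _ = _ := by
        rw [Finset.sum_const, nsmul_eq_mul]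
        ring

/-- Chebyshev -/
lemma cheb {β : Type*} (Om : Finset β) (G : β → ℝ) (D V : ℝ) (hD : 0 < D) (h : ∑ c ∈ Om, G c ^ 2 ≤ V) :
    ((Om.filter (fun c => D < |G c|)).card : ℝ) ≤ V / D ^ 2 := by
  rw [le_div_iff₀ (by positivity)]
  calc ((Om.filter (fun c => D < |G c|)).card : ℝ) * D ^ 2 = ∑ c ∈ Om.filter (fun c => D < |G c|), D ^ 2 := by
        rw [Finset.sum_const, nsmul_eq_mul]
    _ ≤ ∑ c ∈ Om.filter (fun c => D < |G c|), G c ^ 2 := by
        apply Finset.sum_le_sum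
        intro c hc
        have := (mem_filter.1 hc).2
        rw [← sq_abs (G c)]
        exact pow_le_pow_left₀ hD.le this.le 2
    _ ≤ ∑ c ∈ Om, G c ^ 2 := Finset.sum_le_sum_of_subset_of_nonneg (filter_subset _ _) fun c _ _ => sq_nonneg _
    _ ≤ V := h

/-- Markov -/
lemma mark {β : Type*} (Om : Finset β) (G : β → ℝ) (D V : ℝ) (hD : 0 < D) (hG : ∀ c ∈ Om, 0 ≤ G c)
    (h : ∑ c ∈ Om, G c ≤ V) : ((Om.filter (fun c => D < G c)).card : ℝ) ≤ V / D := by
  rw [le_div_iff₀ hD]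
  calc ((Om.filter (fun c => D < G c)).card : ℝ) * D = ∑ c ∈ Om.filter (fun c => D < G c), D := by
        rw [Finset.sum_const, nsmul_eq_mul]
    _ ≤ ∑ c ∈ Om.filter (fun c => D < G c), G c := Finset.sum_le_sum fun c hc => (mem_filter.1 hc).2.le
    _ ≤ ∑ c ∈ Om, G c := Finset.sum_le_sum_of_subset_of_nonneg (filter_subset _ _) fun c hc _ => hG c hc
    _ ≤ V := h

end Pool.Agent.Q236.QG
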