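import Pool.Agent.Q236.QG.Win
import Pool.Agent.Q236.QG.Var

set_option autoImplicit false

/-!
# Patterns and moments for two windows, on a residue class
-/

namespace Pool.Agent.Q236.QG

open Finset Filter Polynomial
open Pool.Agent.Q236.RP Pool.Agent.Q236.UL Pool.Agent.Q236.FL

variable {n : ℕ}

open Classical in
/-- the indicator of the pattern `v` in the windows after `k` -/
noncomputable def Ft {τ : Type*} {d : ℕ} (f : Fin n → ℕ → ℤ) (a b v : τ → ℕ) (k : ℕ) (c : Fin n → Fin d → ℤ) : ℝ :=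
  if (fun t => Np f (Ioc (k + a t) (k + a t + b t)) c) = v then 1 else 0

lemma Ft_nonneg {τ : Type*} {d : ℕ} (f : Fin n → ℕ → ℤ) (a b v : τ → ℕ) (k : ℕ) (c : Fin n → Fin d → ℤ) :
    0 ≤ Ft f a b v k c := by
  unfold Ft
  split_ifs <;> norm_num

lemma Ft_sq {τ : Type*} {d : ℕ} (f : Fin n → ℕ → ℤ) (a b v : τ → ℕ) (k : ℕ) (c : Fin n → Fin d → ℤ) :
    Ft f a b v k c ^ 2 ≤ 1 := by
  unfold Ft
  split_ifs <;> norm_num

/-- **The law of the patterns, for one and for two positions** -/
theorem pat_class {τ : Type*} [Fintype τ] [DecidableEq τ] (hn : 1 ≤ n) (t0 Λ η : ℝ) (ht0 : 0 ≤ t0) (hΛ : 0 ≤ Λ)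
    (hη : 0 < η) : ∃ d0 w0 : ℕ, 2 ≤ w0 ∧ ∀ w : ℕ, w0 ≤ w → ∀ C d : ℕ, d0 ≤ d → ∀ᶠ X : ℕ in atTop,
    ∀ (F : Fin n → ℤ[X]) (Z : Fin n → Fin d → ℤ) (Y : Fin n → Fin d → ℕ) (K0 K H : ℕ) (a b : τ → ℕ),
    (∀ t, a t + b t ≤ H) → (∀ t u, t ≠ u → Disjoint (Ioc (a t) (a t + b t)) (Ioc (a u) (a u + b u))) →
    (H : ℝ) ≤ t0 * Real.log X ^ n → (∀ i, SZ C X (fe F i) (Z i) (Y i) (Ioc K0 (K0 + K))) →
    ∀ c0 : Fin n → Fin d → ℤ, ssw F w c0 ≤ Λ → ∀ v : τ → ℕ,
    (∀ k, K0 ≤ k → k + H ≤ K0 + K → |∑ c ∈ OmN w Z Y c0, Ft (fe F) a b v k c - (OmN w Z Y c0).card *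
      PoJ (fun t => ssw F w c0 * (b t / Real.log X ^ n)) {v}| ≤ η * (OmN w Z Y c0).card) ∧
    (∀ k l, K0 ≤ k → k + H ≤ l → l + H ≤ K0 + K →
      |∑ c ∈ OmN w Z Y c0, Ft (fe F) a b v k c * Ft (fe F) a b v l c - (OmN w Z Y c0).card *
      PoJ (fun t => ssw F w c0 * (b t / Real.log X ^ n)) {v} ^ 2| ≤ η * (OmN w Z Y c0).card) := by
  classical
  obtain ⟨d1, w1, hw1, h1⟩ := law_int (σ := τ) hn t0 Λ η ht0 hΛ hη
  obtain ⟨d2, w2, hw2, h2⟩ := law_int (σ := τ ⊕ τ) hn t0 Λ η ht0 hΛ hη
  refine ⟨max d1 d2, max w1 w2, by omega, ?_⟩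
  intro w hw C d hd
  filter_upwards [h1 w (by omega) C d (by omega), h2 w (by omega) C d (by omega)] with X hX1 hX2 F Z Y K0 K H a b
    hab hdis hH hsz c0 hc0 v
  have hdis2 : ∀ k t u, t ≠ u → Disjoint (Ioc (k + a t) (k + a t + b t)) (Ioc (k + a u) (k + a u + b u)) := by
    intro k t u htu
    rw [Finset.disjoint_left]
    intro x hx1 hx2
    rw [mem_Ioc] at hx1 hx2
    exact Finset.disjoint_left.1 (hdis t u htu) (mem_Ioc.2 ⟨by omega, by omega⟩ : x - k ∈ _)
      (mem_Ioc.2 ⟨by omega, by omega⟩)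
  constructor
  · intro k hk1 hk2
    have h3 := hX1 F Z Y k k H (fun t => k + a t) b (fun t => by have := hab t; omega) (hdis2 k) (by
      intro t x hx
      rw [mem_Ioc] at hx
      rw [mem_union, mem_Ioc]
      have := hab t
      exact Or.inl ⟨by omega, by omega⟩) hH (fun i => (hsz i).mono (by
        intro x hx
        rw [mem_union, mem_Ioc] at hx
        rw [mem_Ioc]
        omega)) c0 hc0 {v}
    have e : ∑ c ∈ OmN w Z Y c0, Ft (fe F) a b v k c =
        (((OmN w Z Y c0).filter (fun c => (fun t => Np (fe F) (Ioc (k + a t) (k + a t + b t)) c) ∈ ({v} : Finset (τ → ℕ)))).card : ℝ) := by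
      rw [Finset.card_filter]
      push_cast
      apply Finset.sum_congr rfl
      intro c _
      unfold Ft
      by_cases g : (fun t => Np (fe F) (Ioc (k + a t) (k + a t + b t)) c) = v
      · rw [if_pos g, if_pos (mem_singleton.2 g)]
      · rw [if_neg g, if_neg (fun g2 => g (mem_singleton.1 g2))]
    rw [e]
    exact h3
  · intro k l hk1 hkl hl
    have h3 := hX2 F Z Y k l H (Sum.elim (fun t => k + a t) (fun t => l + a t)) (Sum.elim b b) (by
      rintro (t | t)
      · simp only [Sum.elim_inl]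
        have := hab t
        omega
      · simp only [Sum.elim_inr]
        have := hab t
        omega) (by
      rintro (t | t) (u | u) htu
      · simp only [Sum.elim_inl]
        exact hdis2 k t u (fun h => htu (by rw [h]))
      · simp only [Sum.elim_inl, Sum.elim_inr]
        rw [Finset.disjoint_left]
        intro x hx1 hx2
        rw [mem_Ioc] at hx1 hx2
        have := hab t
        omega
      · simp only [Sum.elim_inl, Sum.elim_inr]
        rw [Finset.disjoint_left]
        intro x hx1 hx2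
        rw [mem_Ioc] at hx1 hx2
        have := hab u
        omega
      · simp only [Sum.elim_inr]
        exact hdis2 l t u (fun h => htu (by rw [h]))) (by
      rintro (t | t) x hx
      · simp only [Sum.elim_inl, mem_Ioc] at hx
        rw [mem_union, mem_Ioc]
        have := hab t
        exact Or.inl ⟨by omega, by omega⟩
      · simp only [Sum.elim_inr, mem_Ioc] at hx
        rw [mem_union, mem_Ioc, mem_Ioc]
        have := hab t
        exact Or.inr ⟨by omega, by omega⟩) hH (fun i => (hsz i).mono (by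
        intro x hx
        rw [mem_union, mem_Ioc, mem_Ioc] at hx
        rw [mem_Ioc]
        omega)) c0 hc0 {Sum.elim v v}
    have e : ∑ c ∈ OmN w Z Y c0, Ft (fe F) a b v k c * Ft (fe F) a b v l c =
        (((OmN w Z Y c0).filter (fun c => (fun t => Np (fe F) (Ioc (Sum.elim (fun t => k + a t) (fun t => l + a t) t)
          (Sum.elim (fun t => k + a t) (fun t => l + a t) t + Sum.elim b b t)) c) ∈
          ({Sum.elim v v} : Finset (τ ⊕ τ → ℕ)))).card : ℝ) := by
      rw [Finset.card_filter]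
      push_cast
      apply Finset.sum_congr rfl
      intro c _
      unfold Ft
      have hiff : ((fun t => Np (fe F) (Ioc (k + a t) (k + a t + b t)) c) = v ∧
          (fun t => Np (fe F) (Ioc (l + a t) (l + a t + b t)) c) = v) ↔
          (fun t => Np (fe F) (Ioc (Sum.elim (fun t => k + a t) (fun t => l + a t) t)
          (Sum.elim (fun t => k + a t) (fun t => l + a t) t + Sum.elim b b t)) c) ∈
          ({Sum.elim v v} : Finset (τ ⊕ τ → ℕ)) := by
        rw [mem_singleton]
        constructor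
        · rintro ⟨g1, g2⟩
          funext t
          rcases t with t | t
          · exact congrFun g1 t
          · exact congrFun g2 t
        · intro g
          refine ⟨?_, ?_⟩
          · funext t
            exact congrFun g (Sum.inl t)
          · funext t
            exact congrFun g (Sum.inr t)
      by_cases g : (fun t => Np (fe F) (Ioc (Sum.elim (fun t => k + a t) (fun t => l + a t) t)
          (Sum.elim (fun t => k + a t) (fun t => l + a t) t + Sum.elim b b t)) c) ∈
          ({Sum.elim v v} : Finset (τ ⊕ τ → ℕ))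
      · obtain ⟨g1, g2⟩ := hiff.2 g
        rw [if_pos g, if_pos g1, if_pos g2, mul_one]
      · rw [if_neg g]
        by_cases g1 : (fun t => Np (fe F) (Ioc (k + a t) (k + a t + b t)) c) = v
        · have g2 : ¬ (fun t => Np (fe F) (Ioc (l + a t) (l + a t + b t)) c) = v := fun g2 => g (hiff.1 ⟨g1, g2⟩)
          rw [if_neg g2, mul_zero]
        · rw [if_neg g1, zero_mul]
    rw [e]
    have e2 : PoJ (fun t => ssw F w c0 * ((Sum.elim b b t : ℕ) / Real.log X ^ n)) {Sum.elim v v} =
        PoJ (fun t => ssw F w c0 * (b t / Real.log X ^ n)) {v} ^ 2 := by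
      unfold PoJ
      rw [Finset.sum_singleton, Finset.sum_singleton, Fintype.prod_sum_type, sq]
      simp only [Sum.elim_inl, Sum.elim_inr]
    rw [← e2]
    exact h3

end Pool.Agent.Q236.QG
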