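import Pool.Agent.Q236.QG.Gap

set_option autoImplicit false

/-!
# From empty windows to gaps: the deterministic part
-/

namespace Pool.Agent.Q236.QG

open Finset

lemma exp_diff (s u v : ℝ) : s * (v - u) * Real.exp (-(s * v)) ≤ Real.exp (-(s * u)) - Real.exp (-(s * v)) ∧
    Real.exp (-(s * u)) - Real.exp (-(s * v)) ≤ s * (v - u) * Real.exp (-(s * u)) := by
  have h1 := Real.add_one_le_exp (s * (v - u))
  have h2 := Real.add_one_le_exp (-(s * (v - u)))
  have e1 : Real.exp (-(s * u)) = Real.exp (s * (v - u)) * Real.exp (-(s * v)) := by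
    rw [← Real.exp_add]
    congr 1
    ring
  have e2 : Real.exp (-(s * v)) = Real.exp (-(s * (v - u))) * Real.exp (-(s * u)) := by
    rw [← Real.exp_add]
    congr 1
    ring
  have p1 := (Real.exp_pos (-(s * v))).le
  have p2 := (Real.exp_pos (-(s * u))).le
  constructor
  · have := mul_le_mul_of_nonneg_right h1 p1
    rw [← e1] at this
    linarith
  · have := mul_le_mul_of_nonneg_right h2 p2
    rw [← e2] at this
    linarith

lemma exp_lip (s u v : ℝ) (hs : 0 ≤ s) (hu : 0 ≤ u) (huv : u ≤ v) :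
    s * Real.exp (-(s * u)) ≤ s * Real.exp (-(s * v)) + s ^ 2 * (v - u) := by
  have h1 := (exp_diff s u v).2
  have h2 : Real.exp (-(s * u)) ≤ 1 := by
    rw [Real.exp_le_one_iff]
    have := mul_nonneg hs hu
    linarith
  have h3 : s * (v - u) * Real.exp (-(s * u)) ≤ s * (v - u) * 1 :=
    mul_le_mul_of_nonneg_left h2 (mul_nonneg hs (by linarith))
  have h4 := mul_le_mul_of_nonneg_left (h1.trans h3) hs
  nlinarith

lemma exp_small (s t e : ℝ) (ht : 0 < t) (he : 1 ≤ e * t) (hs : 0 ≤ s) : s * Real.exp (-(s * t)) ≤ e := by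
  have h1 := Real.add_one_le_exp (s * t)
  have h2 := Real.exp_pos (s * t)
  have h4 : s ≤ e * Real.exp (s * t) := by
    have he0 : 0 < e := by
      by_contra hcon
      push Not at hcon
      have := mul_nonpos_of_nonpos_of_nonneg hcon ht.le
      linarith
    calc s = s * 1 := (mul_one s).symm
      _ ≤ s * (e * t) := mul_le_mul_of_nonneg_left he hs
      _ = e * (s * t) := by ring
      _ ≤ e * Real.exp (s * t) := mul_le_mul_of_nonneg_left (by linarith) he0.le
  rw [Real.exp_neg]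
  calc s * (Real.exp (s * t))⁻¹ ≤ e * Real.exp (s * t) * (Real.exp (s * t))⁻¹ :=
        mul_le_mul_of_nonneg_right h4 (by positivity)
    _ = e := by field_simp

lemma cons_le_np (P : ℕ → Prop) (K0 K : ℕ) (T : ℝ) : (cons P K0 K T).card ≤ np P (Ioc K0 (K0 + K)) := by
  classical
  unfold np
  apply card_le_card_of_injOn Prod.snd
  · intro x hx
    rw [mem_coe, mem_cons] at hx
    rw [mem_coe, mem_filter, mem_Ioc]
    exact ⟨hx.2.1, hx.2.2.2.1⟩
  · intro x hx y hy hxy
    exact cons_inj P K0 K T x y hx hy hxy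

lemma np_mono (P : ℕ → Prop) (A B : Finset ℕ) (h : A ⊆ B) : np P A ≤ np P B := by
  classical
  unfold np
  exact card_le_card (filter_subset_filter _ h)

/-- the end points of the grid -/
noncomputable def gr (h0 L : ℝ) (j : ℕ) : ℕ := ⌊(j : ℝ) * h0 * L⌋₊

lemma gr_le (h0 L : ℝ) (hh : 0 ≤ h0) (hL : 0 ≤ L) (j : ℕ) : (gr h0 L j : ℝ) ≤ j * h0 * L :=
  Nat.floor_le (by positivity)

lemma gr_lt (h0 L : ℝ) (j : ℕ) : (j : ℝ) * h0 * L < gr h0 L j + 1 := Nat.lt_floor_add_one _

lemma gr_mono (h0 L : ℝ) (hh : 0 ≤ h0) (hL : 0 ≤ L) (i j : ℕ) (h : i ≤ j) : gr h0 L i ≤ gr h0 L j := by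
  unfold gr
  apply Nat.floor_mono
  have : (i : ℝ) ≤ j := by exact_mod_cast h
  apply mul_le_mul_of_nonneg_right _ hL
  exact mul_le_mul_of_nonneg_right this hh

/-- **Gaps from empty windows** -/
theorem det_gap (P : ℕ → Prop) (K0 K N B0 : ℕ) (h0 L s Λ δ e : ℝ) (hh0 : 0 < h0) (hhL : 2 ≤ h0 * L) (hL : 0 < L)
    (hs0 : 0 ≤ s) (hsΛ : s ≤ Λ) (hδ : 0 ≤ δ) (he : 0 < e) (hN : 3 ≤ N)
    (ha : 3 * Λ ^ 2 * h0 ≤ e) (hb : 4 * δ ≤ e * h0) (hc : (N * h0 * (Λ + 1) + 1 + 2 * B0) * L ≤ e * K) (hK1 : (N * h0) * L ≤ K)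
    (hd : 1 ≤ e * ((N - 2) * h0))
    (E1 : ∀ j ≤ N, |((vd P (Ico K0 (K0 + K - gr h0 L N)) (gr h0 L j)).card : ℝ) -
      (Ico K0 (K0 + K - gr h0 L N)).card * Real.exp (-(s * (gr h0 L j / L)))| ≤ δ * K)
    (E2 : |∑ k ∈ Ico K0 (K0 + K - gr h0 L N), (np P (Ioc k (k + gr h0 L 1)) : ℝ) -
      (Ico K0 (K0 + K - gr h0 L N)).card * (s * (gr h0 L 1 / L))| ≤ δ * K)
    (E3 : np P (Ioc K0 (K0 + gr h0 L N)) ≤ B0) (E4 : np P (Ioc (K0 + K - gr h0 L N) (K0 + K)) ≤ B0)
    (t : ℝ) (ht : 0 ≤ t) :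
    |((cons P K0 K (t * L)).card : ℝ) - K / L * (s * Real.exp (-(s * t)))| ≤ 4 * e * (K / L) := by
  obtain ⟨Hm, hHm⟩ : ∃ Hm, Hm = gr h0 L N := ⟨_, rfl⟩
  rw [← hHm] at E1 E2 E3 E4
  have hHmle : (Hm : ℝ) ≤ N * h0 * L := by rw [hHm]; exact gr_le h0 L hh0.le hL.le N
  have hHmK : Hm ≤ K := by exact_mod_cast hHmle.trans hK1
  obtain ⟨J, hJ⟩ : ∃ J, J = Ico K0 (K0 + K - Hm) := ⟨_, rfl⟩
  have hJc : J.card = K - Hm := by
    rw [hJ, Nat.card_Ico]
    omega
  have hJr : (J.card : ℝ) = K - Hm := by rw [hJc, Nat.cast_sub hHmK]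
  rw [← hJ] at E1 E2
  obtain ⟨q, hq⟩ : ∃ q : ℝ, q = J.card := ⟨_, rfl⟩
  rw [← hq] at E1 E2 hJr
  have hHm0 : (0 : ℝ) ≤ Hm := Nat.cast_nonneg _
  have hqK : q ≤ K := by linarith
  have hq0 : 0 ≤ q := by rw [hq]; exact Nat.cast_nonneg _
  have hK0 : (0 : ℝ) ≤ K := Nat.cast_nonneg _
  obtain ⟨A, hA⟩ : ∃ A : ℝ, A = K / L := ⟨_, rfl⟩
  have hA0 : 0 ≤ A := by rw [hA]; positivity
  have hAL : A * L = K := by rw [hA]; field_simp
  have hqA : q / L ≤ A := by rw [hA]; exact div_le_div_of_nonneg_right hqK hL.le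
  have hqL0 : 0 ≤ q / L := by positivity
  obtain ⟨M, hM⟩ : ∃ M : ℝ, M = N * h0 := ⟨_, rfl⟩
  have hM0 : 0 ≤ M := by rw [hM]; positivity
  rw [← hM] at hc hK1 hHmle
  have hΛ0 : 0 ≤ Λ := hs0.trans hsΛ
  have hB00 : (0 : ℝ) ≤ B0 := Nat.cast_nonneg _
  have hc' : M * (Λ + 1) + 1 + 2 * B0 ≤ e * A := by
    have : (M * (Λ + 1) + 1 + 2 * B0) * L ≤ e * A * L := by rw [mul_assoc e A L, hAL]; exact hc
    exact le_of_mul_le_mul_right this hL
  have hqlow : A - M ≤ q / L := by
    rw [le_div_iff₀ hL, sub_mul, hAL]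
    linarith
  -- the functions
  obtain ⟨g, hg⟩ : ∃ g : ℝ → ℝ, g = fun u => s * Real.exp (-(s * u)) := ⟨_, rfl⟩
  have hg0 : ∀ u, 0 ≤ g u := fun u => by rw [hg]; positivity
  have hgΛ : ∀ u, 0 ≤ u → g u ≤ Λ := by
    intro u hu
    rw [hg]
    simp only
    have : Real.exp (-(s * u)) ≤ 1 := by
      rw [Real.exp_le_one_iff]
      have := mul_nonneg hs0 hu
      linarith
    calc s * Real.exp (-(s * u)) ≤ s * 1 := mul_le_mul_of_nonneg_left this hs0
      _ ≤ Λ := by linarith
  have hglip : ∀ u v, 0 ≤ u → u ≤ v → g u ≤ g v + Λ ^ 2 * (v - u) := by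
    intro u v hu huv
    rw [hg]
    simp only
    have h1 := exp_lip s u v hs0 hu huv
    have h2 : s ^ 2 * (v - u) ≤ Λ ^ 2 * (v - u) :=
      mul_le_mul_of_nonneg_right (pow_le_pow_left₀ hs0 hsΛ 2) (by linarith)
    linarith
  have hgsm : ∀ u, 0 < u → 1 ≤ e * u → g u ≤ e := fun u hu h => by rw [hg]; exact exp_small s u e hu h hs0
  have hgt : s * Real.exp (-(s * t)) = g t := by rw [hg]
  rw [hgt, ← hA]
  obtain ⟨x, hx⟩ : ∃ x : ℕ → ℝ, x = fun j => (gr h0 L j : ℝ) / L := ⟨_, rfl⟩
  have hx0 : ∀ j, 0 ≤ x j := fun j => by rw [hx]; positivity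
  have hxle : ∀ j : ℕ, x j ≤ j * h0 := by
    intro j
    rw [hx]
    simp only
    rw [div_le_iff₀ hL]
    exact gr_le h0 L hh0.le hL.le j
  have hxge : ∀ j : ℕ, j * h0 - h0 ≤ x j := by
    intro j
    rw [hx]
    simp only
    rw [le_div_iff₀ hL]
    have := gr_lt h0 L j
    nlinarith
  have hxj : ∀ j, (gr h0 L j : ℝ) / L = x j := fun j => by rw [hx]
  -- the differences
  have hD : ∀ j : ℕ, h0 * L / 2 ≤ (gr h0 L (j + 1) : ℝ) - gr h0 L j := by
    intro j
    have h1 := gr_lt h0 L (j + 1)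
    have h2 := gr_le h0 L hh0.le hL.le j
    push_cast at h1
    nlinarith
  have hstep : ∀ j : ℕ, j + 1 ≤ N → ∀ D : ℝ, D = (gr h0 L (j + 1) : ℝ) - gr h0 L j →
      q / L * g (x (j + 1)) - e * A ≤ (((vd P J (gr h0 L j)).card : ℝ) - (vd P J (gr h0 L (j + 1))).card) / D ∧
      (((vd P J (gr h0 L j)).card : ℝ) - (vd P J (gr h0 L (j + 1))).card) / D ≤ q / L * g (x j) + e * A := by
    intro j hj D hDe
    have hDj := hD j
    rw [← hDe] at hDj
    have hD0 : 0 < D := by nlinarith
    have b1 := abs_le.1 (E1 j (by omega))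
    have b2 := abs_le.1 (E1 (j + 1) hj)
    rw [hxj] at b1 b2
    have b3 := exp_diff s (x j) (x (j + 1))
    have e1 : s * (x (j + 1) - x j) * Real.exp (-(s * x (j + 1))) = D / L * g (x (j + 1)) := by
      rw [hg, hx, hDe]
      ring
    have e2 : s * (x (j + 1) - x j) * Real.exp (-(s * x j)) = D / L * g (x j) := by
      rw [hg, hx, hDe]
      ring
    rw [e1, e2] at b3
    have b4 : 2 * (δ * K) ≤ e * A * D := by
      have c1 : 4 * δ * L ≤ e * h0 * L := mul_le_mul_of_nonneg_right hb hL.le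
      have c2 : 2 * δ * L ≤ e * (h0 * L / 2) := by linarith
      have c3 : e * (h0 * L / 2) ≤ e * D := mul_le_mul_of_nonneg_left hDj he.le
      have c4 := mul_le_mul_of_nonneg_left (c2.trans c3) hA0
      calc 2 * (δ * K) = A * (2 * δ * L) := by rw [← hAL]; ring
        _ ≤ A * (e * D) := c4
        _ = _ := by ring
    constructor
    · rw [le_div_iff₀ hD0]
      have c1 := mul_le_mul_of_nonneg_left b3.1 hq0
      have e3 : (q / L * g (x (j + 1)) - e * A) * D = q * (D / L * g (x (j + 1))) - e * A * D := by ring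
      rw [e3]
      linarith [b1.1, b2.2]
    · rw [div_le_iff₀ hD0]
      have c1 := mul_le_mul_of_nonneg_left b3.2 hq0
      have e3 : (q / L * g (x j) + e * A) * D = q * (D / L * g (x j)) + e * A * D := by ring
      rw [e3]
      linarith [b1.2, b2.1]
  have hNr : (3 : ℝ) ≤ N := by exact_mod_cast hN
  obtain ⟨c, hcc⟩ : ∃ c : ℝ, c = ((cons P K0 K (t * L)).card : ℝ) := ⟨_, rfl⟩
  have hc0 : 0 ≤ c := by rw [hcc]; exact Nat.cast_nonneg _
  rw [← hcc]
  have hMΛ : 0 ≤ M * Λ := mul_nonneg hM0 hΛ0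
  have heA : 0 ≤ e * A := by positivity
  rw [abs_le]
  constructor
  · -- the lower bound
    obtain ⟨j, hj⟩ : ∃ j, j = ⌊t / h0⌋₊ + 1 := ⟨_, rfl⟩
    have hj1 : t < j * h0 := by
      have := Nat.lt_floor_add_one (t / h0)
      rw [div_lt_iff₀ hh0] at this
      rw [hj]
      push_cast
      exact this
    have hj2 : (j : ℝ) * h0 ≤ t + h0 := by
      have := Nat.floor_le (show 0 ≤ t / h0 by positivity)
      rw [le_div_iff₀ hh0] at this
      rw [hj]
      push_cast
      linarith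
    rcases Nat.lt_or_ge N (j + 1) with hjN | hjN
    · -- large t
      have h1 : (N : ℝ) ≤ j := by exact_mod_cast (by omega : N ≤ j)
      have h2 : (N - 2) * h0 ≤ t := by nlinarith
      have h3 : 1 ≤ e * t := hd.trans (mul_le_mul_of_nonneg_left h2 he.le)
      have h4 : 0 < t := by
        by_contra hcon
        push Not at hcon
        have := mul_nonneg he.le ht
        nlinarith
      have h5 := hgsm t h4 h3
      have h6 := mul_le_mul_of_nonneg_left h5 hA0
      nlinarith
    · have h1 := gap_lower P K0 K Hm (gr h0 L j) (gr h0 L (j + 1)) (t * L) (gr_mono h0 L hh0.le hL.le _ _ (by omega))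
        (by rw [hHm]; exact gr_mono h0 L hh0.le hL.le _ _ hjN) (by
          refine lt_trans ?_ (gr_lt h0 L j)
          exact mul_lt_mul_of_pos_right hj1 hL)
      rw [← hJ] at h1
      have hmn : gr h0 L j ≤ gr h0 L (j + 1) := gr_mono h0 L hh0.le hL.le _ _ (by omega)
      have h2 : ((vd P J (gr h0 L j)).card : ℝ) ≤ (vd P J (gr h0 L (j + 1))).card +
          ((gr h0 L (j + 1) : ℝ) - gr h0 L j) * (c + 1) := by
        rw [hcc, ← Nat.cast_sub hmn]
        exact_mod_cast h1
      obtain ⟨D, hDe⟩ : ∃ D : ℝ, D = (gr h0 L (j + 1) : ℝ) - gr h0 L j := ⟨_, rfl⟩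
      have hDj := hD j
      rw [← hDe] at h2 hDj
      have hD0 : 0 < D := by nlinarith
      have h3 := (hstep j hjN D hDe).1
      have h4 : (((vd P J (gr h0 L j)).card : ℝ) - (vd P J (gr h0 L (j + 1))).card) / D ≤ c + 1 := by
        rw [div_le_iff₀ hD0]
        linarith
      have h5 : x (j + 1) ≤ t + 2 * h0 := by
        have := hxle (j + 1)
        push_cast at this
        linarith
      have h6 : g (t + 2 * h0) ≤ g (x (j + 1)) := by
        rw [hg]
        simp only
        apply mul_le_mul_of_nonneg_left _ hs0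
        apply Real.exp_le_exp.2
        have := mul_le_mul_of_nonneg_left h5 hs0
        linarith
      have h7 := hglip t (t + 2 * h0) ht (by linarith)
      have h8 : g t - e ≤ g (x (j + 1)) := by
        have e1 : Λ ^ 2 * (t + 2 * h0 - t) = 2 * Λ ^ 2 * h0 := by ring
        rw [e1] at h7
        have : 0 ≤ Λ ^ 2 * h0 := by positivity
        linarith
      have h9 : A * (g t - e) - M * Λ ≤ q / L * g (x (j + 1)) := by
        have c1 : (A - M) * g (x (j + 1)) ≤ q / L * g (x (j + 1)) := mul_le_mul_of_nonneg_right hqlow (hg0 _)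
        have c2 : A * (g t - e) ≤ A * g (x (j + 1)) := mul_le_mul_of_nonneg_left h8 hA0
        have c3 : M * g (x (j + 1)) ≤ M * Λ := mul_le_mul_of_nonneg_left (hgΛ _ (hx0 _)) hM0
        nlinarith
      nlinarith
  · -- the upper bound
    rcases lt_or_ge t h0 with hth | hth
    · have h1 := count_upper P K0 K Hm (gr h0 L 1) (by rw [hHm]; exact gr_mono h0 L hh0.le hL.le _ _ (by omega)) hHmK
      have h2 := cons_le_np P K0 K (t * L)
      have h3 : np P (Ioc K0 (K0 + gr h0 L 1)) ≤ B0 := by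
        refine le_trans (np_mono P _ _ ?_) E3
        intro y hy
        rw [mem_Ioc] at hy ⊢
        have := gr_mono h0 L hh0.le hL.le 1 N (by omega)
        rw [← hHm] at this
        omega
      rw [← hJ] at h1
      obtain ⟨D, hDe⟩ : ∃ D : ℝ, D = (gr h0 L 1 : ℝ) := ⟨_, rfl⟩
      have hDj := hD 0
      have e0 : gr h0 L 0 = 0 := by
        unfold gr
        simp
      rw [zero_add, e0, Nat.cast_zero, sub_zero, ← hDe] at hDj
      have hD0 : 0 < D := by nlinarith
      have h4 : D * c ≤ ∑ k ∈ J, (np P (Ioc k (k + gr h0 L 1)) : ℝ) + D * (2 * B0) := by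
        have c1 : gr h0 L 1 * (cons P K0 K (t * L)).card ≤ ∑ k ∈ J, np P (Ioc k (k + gr h0 L 1)) + gr h0 L 1 * (2 * B0) := by
          calc gr h0 L 1 * (cons P K0 K (t * L)).card ≤ gr h0 L 1 * np P (Ioc K0 (K0 + K)) :=
                Nat.mul_le_mul_left _ h2
            _ ≤ _ := h1
            _ ≤ _ := by
              apply Nat.add_le_add_left
              apply Nat.mul_le_mul_left
              omega
        rw [hDe, hcc]
        exact_mod_cast c1
      have h5 := (abs_le.1 E2).2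
      rw [← hDe] at h5
      have h6 : q * (s * (D / L)) = D * (q / L * s) := by ring
      rw [h6] at h5
      have h7 : q / L * s ≤ A * s := mul_le_mul_of_nonneg_right hqA hs0
      have h8 : δ * K ≤ D * (e * A) := by
        have c1 : 4 * δ * L ≤ e * h0 * L := mul_le_mul_of_nonneg_right hb hL.le
        have c3 : e * (h0 * L / 2) ≤ e * D := mul_le_mul_of_nonneg_left hDj he.le
        have c0 : 0 ≤ δ * L := by positivity
        have c4 : δ * L ≤ e * D := by linarith
        calc δ * K = A * (δ * L) := by rw [← hAL]; ring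
          _ ≤ A * (e * D) := mul_le_mul_of_nonneg_left c4 hA0
          _ = _ := by ring
      have h9 : D * c ≤ D * (A * s + e * A + 2 * B0) := by
        have := mul_le_mul_of_nonneg_left h7 hD0.le
        nlinarith
      have h10 : c ≤ A * s + e * A + 2 * B0 := le_of_mul_le_mul_left h9 hD0
      have h11 : s ≤ g t + e := by
        have c1 := hglip 0 t le_rfl ht
        have c2 : g 0 = s := by rw [hg]; simp
        rw [c2, sub_zero] at c1
        have c3 : Λ ^ 2 * t ≤ Λ ^ 2 * h0 := mul_le_mul_of_nonneg_left hth.le (by positivity)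
        have : 0 ≤ Λ ^ 2 * h0 := by positivity
        linarith
      have h12 := mul_le_mul_of_nonneg_left h11 hA0
      nlinarith
    · obtain ⟨j, hj⟩ : ∃ j, j + 1 = min ⌊t / h0⌋₊ N := by
        have h1 : 1 ≤ ⌊t / h0⌋₊ := by
          rw [Nat.one_le_floor_iff, le_div_iff₀ hh0, one_mul]
          exact hth
        exact ⟨min ⌊t / h0⌋₊ N - 1, by omega⟩
      have hjN : j + 1 ≤ N := by omega
      have hjt : ((j + 1 : ℕ) : ℝ) * h0 ≤ t := by
        have h1 := Nat.floor_le (show 0 ≤ t / h0 by positivity)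
        rw [le_div_iff₀ hh0] at h1
        refine le_trans ?_ h1
        apply mul_le_mul_of_nonneg_right _ hh0.le
        exact_mod_cast (by omega : j + 1 ≤ ⌊t / h0⌋₊)
      have h1 := gap_upper P K0 K Hm (gr h0 L j) (gr h0 L (j + 1)) (t * L) (gr_mono h0 L hh0.le hL.le _ _ (by omega))
        (by
          refine (gr_le h0 L hh0.le hL.le (j + 1)).trans ?_
          exact mul_le_mul_of_nonneg_right hjt hL.le) hHmK
      rw [← hJ] at h1
      have hmn : gr h0 L j ≤ gr h0 L (j + 1) := gr_mono h0 L hh0.le hL.le _ _ (by omega)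
      obtain ⟨D, hDe⟩ : ∃ D : ℝ, D = (gr h0 L (j + 1) : ℝ) - gr h0 L j := ⟨_, rfl⟩
      have hDj := hD j
      rw [← hDe] at hDj
      have hD0 : 0 < D := by nlinarith
      have h2 : D * c + ((vd P J (gr h0 L (j + 1))).card : ℝ) ≤ (vd P J (gr h0 L j)).card + D * B0 := by
        have c1 : (gr h0 L (j + 1) - gr h0 L j) * (cons P K0 K (t * L)).card + (vd P J (gr h0 L (j + 1))).card ≤
            (vd P J (gr h0 L j)).card + (gr h0 L (j + 1) - gr h0 L j) * B0 :=
          h1.trans (Nat.add_le_add_left (Nat.mul_le_mul_left _ E4) _)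
        rw [hDe, hcc, ← Nat.cast_sub hmn]
        exact_mod_cast c1
      have h3 := (hstep j hjN D hDe).2
      have h4 : c ≤ (((vd P J (gr h0 L j)).card : ℝ) - (vd P J (gr h0 L (j + 1))).card) / D + B0 := by
        have : D * c ≤ D * ((((vd P J (gr h0 L j)).card : ℝ) - (vd P J (gr h0 L (j + 1))).card) / D + B0) := by
          rw [mul_add, mul_div_cancel₀ _ hD0.ne']
          linarith
        exact le_of_mul_le_mul_left this hD0
      have h5 : q / L * g (x j) ≤ A * g (x j) := mul_le_mul_of_nonneg_right hqA (hg0 _)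
      have h6 : g (x j) ≤ g t + e := by
        rcases Nat.lt_or_ge ⌊t / h0⌋₊ N with h7 | h7
        · have h8 : t < (j + 2) * h0 := by
            have := Nat.lt_floor_add_one (t / h0)
            rw [div_lt_iff₀ hh0] at this
            have e1 : ⌊t / h0⌋₊ = j + 1 := by omega
            rw [e1] at this
            push_cast at this
            linarith
          have h9 := hxge j
          have h10 : t - x j ≤ 3 * h0 := by linarith
          have h11 : x j ≤ t := by
            refine (hxle j).trans (le_trans ?_ hjt)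
            push_cast
            nlinarith
          have h12 := hglip (x j) t (hx0 j) h11
          have h13 : Λ ^ 2 * (t - x j) ≤ Λ ^ 2 * (3 * h0) := mul_le_mul_of_nonneg_left h10 (by positivity)
          linarith
        · have e1 : j + 1 = N := by omega
          have e2 : (j : ℝ) = N - 1 := by
            rw [← e1]
            push_cast
            ring
          have h8 := hxge j
          rw [e2] at h8
          have h9 : (N - 2) * h0 ≤ x j := by linarith
          have h10 : 1 ≤ e * x j := hd.trans (mul_le_mul_of_nonneg_left h9 he.le)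
          have h11 : 0 < x j := by
            have : 0 < ((N : ℝ) - 2) * h0 := mul_pos (by linarith) hh0
            linarith
          have h12 := hgsm (x j) h11 h10
          linarith [hg0 t]
      have h7 := mul_le_mul_of_nonneg_left h6 hA0
      nlinarith

end Pool.Agent.Q236.QG
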