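import Pool.Agent.Q236.QG.Pat
import Pool.Agent.Q236.QG.Det

set_option autoImplicit false

/-!
# The law of the gaps along a typical polynomial
-/

namespace Pool.Agent.Q236.QG

open Finset Filter Polynomial
open Pool.Agent.Q236.RP Pool.Agent.Q236.UL Pool.Agent.Q236.FL

variable {n : ℕ}

open Classical in
/-- **One window has a bounded number of prime points** -/
theorem edge (hn : 1 ≤ n) (t0 Λ ε : ℝ) (ht0 : 0 ≤ t0) (hΛ : 0 ≤ Λ) (hε : 0 < ε) : ∃ (w0 B0 : ℕ), 2 ≤ w0 ∧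
    ∀ w : ℕ, w0 ≤ w → ∀ C d : ℕ, 2 ≤ d → ∀ᶠ X : ℕ in atTop,
    ∀ (F : Fin n → ℤ[X]) (Z : Fin n → Fin d → ℤ) (Y : Fin n → Fin d → ℕ) (K0 K H : ℕ),
    (H : ℝ) ≤ t0 * Real.log X ^ n → (∀ i, SZ C X (fe F i) (Z i) (Y i) (Ioc K0 (K0 + K))) →
    ∀ k, K0 ≤ k → k + H ≤ K0 + K →
    (((BoxN Z Y).filter (fun c => ssw F w c ≤ Λ ∧ (B0 : ℝ) < (Np (fe F) (Ioc k (k + H)) c : ℝ))).card : ℝ) ≤
      ε * (BoxN Z Y).card := by
  obtain ⟨w0, hw0, h⟩ := mom_int hn t0 Λ 1 ht0 hΛ one_pos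
  obtain ⟨B0, hB0⟩ := exists_nat_ge ((Λ * t0 + 1) / ε + 1)
  have hB1 : (1 : ℝ) ≤ B0 := by
    have : 0 ≤ (Λ * t0 + 1) / ε := by positivity
    linarith
  have hB2 : Λ * t0 + 1 ≤ ε * B0 := by
    have h1 : (Λ * t0 + 1) / ε ≤ B0 := by linarith
    rw [div_le_iff₀ hε] at h1
    linarith
  refine ⟨w0, B0, hw0, ?_⟩
  intro w hw C d hd
  filter_upwards [h w hw C d hd, ev_log_ge 1] with X hX hL F Z Y K0 K H hH hsz k hk1 hk2
  have hL0 : 0 < Real.log (X : ℝ) := by linarith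
  apply glob_bad w Z Y _ (fun c => ssw F w c ≤ Λ) (fun a c h1 h2 => by rw [← ssw_rs F w a c h1]; exact h2) ε hε.le
  intro c0 hc0
  have h1 := ((hX F Z Y K0 K H H le_rfl hH hsz c0 hc0).1 k hk1 hk2).1
  obtain ⟨W, hW⟩ : ∃ W : ℝ, W = ((OmN w Z Y c0).card : ℝ) := ⟨_, rfl⟩
  have hW0 : 0 ≤ W := by rw [hW]; exact Nat.cast_nonneg _
  rw [← hW] at h1 ⊢
  have h2 : ssw F w c0 * (H / Real.log X ^ n) ≤ Λ * t0 := by
    apply mul_le_mul hc0 _ (by positivity) hΛ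
    rw [div_le_iff₀ (by positivity)]
    exact hH
  have h3 : ∑ c ∈ OmN w Z Y c0, (Np (fe F) (Ioc k (k + H)) c : ℝ) ≤ (Λ * t0 + 1) * W := by
    have h4 := (abs_le.1 h1).2
    have h5 := mul_le_mul_of_nonneg_left h2 hW0
    linarith
  have h4 := mark (OmN w Z Y c0) (fun c => (Np (fe F) (Ioc k (k + H)) c : ℝ)) B0 _ (by linarith)
    (fun c _ => Nat.cast_nonneg _) h3
  refine h4.trans ?_
  rw [div_le_iff₀ (by linarith)]
  have := mul_le_mul_of_nonneg_right hB2 hW0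
  linarith

lemma Np_np {d : ℕ} (f : Fin n → ℕ → ℤ) (T : Finset ℕ) (c : Fin n → Fin d → ℤ) : Np f T c = np (PrA f c) T := rfl

lemma vd_card {d : ℕ} (f : Fin n → ℕ → ℤ) (c : Fin n → Fin d → ℤ) (J : Finset ℕ) (H : ℕ) :
    ((vd (PrA f c) J H).card : ℝ) = ∑ k ∈ J, Ft f (fun _ : Unit => 0) (fun _ => H) (fun _ => 0) k c := by
  classical
  unfold vd
  rw [Finset.card_filter]
  push_cast
  apply Finset.sum_congr rfl
  intro k _
  unfold Ft
  have hiff : (fun _ : Unit => Np f (Ioc (k + 0) (k + 0 + H)) c) = (fun _ => 0) ↔ np (PrA f c) (Ioc k (k + H)) = 0 := by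
    constructor
    · intro h
      have := congrFun h ()
      rw [Nat.add_zero, Np_np] at this
      exact this
    · intro h
      funext _
      rw [Nat.add_zero, Np_np]
      exact h
  by_cases g : np (PrA f c) (Ioc k (k + H)) = 0
  · rw [if_pos g, if_pos (hiff.2 g)]
  · rw [if_neg g, if_neg (fun h => g (hiff.1 h))]

lemma PoJ_unit (x : ℝ) : PoJ (fun _ : Unit => x) {fun _ => 0} = Real.exp (-x) := by
  unfold PoJ
  simp

open Classical in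
/-- **The law of the gaps along a typical polynomial** -/
theorem gap_all (hn : 1 ≤ n) (ε : ℝ) (hε : 0 < ε) : ∃ (d0 w0 : ℕ) (κ : ℝ), 2 ≤ w0 ∧ 0 < κ ∧
    ∀ w : ℕ, w0 ≤ w → ∀ C d : ℕ, d0 ≤ d → ∀ᶠ X : ℕ in atTop,
    ∀ (F : Fin n → ℤ[X]) (Z : Fin n → Fin d → ℤ) (Y : Fin n → Fin d → ℕ) (K0 K : ℕ), κ * Real.log X ^ n ≤ K →
    (∀ i, SZ C X (fe F i) (Z i) (Y i) (Ioc K0 (K0 + K))) →
    (((BoxN Z Y).filter (fun c => ¬∀ t : ℝ, 0 ≤ t →
      |((cons (PrA (fe F) c) K0 K (t * Real.log X ^ n)).card : ℝ) - K / Real.log X ^ n *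
        (ssw F w c * Real.exp (-(ssw F w c * t)))| ≤ ε * (K / Real.log X ^ n))).card : ℝ) ≤
      ε * (BoxN Z Y).card := by
  obtain ⟨Λ, hΛ0, hΛ⟩ := many_ssw hn (ε / 8) (by positivity)
  obtain ⟨e, he⟩ : ∃ e, e = ε / 4 := ⟨_, rfl⟩
  have he0 : 0 < e := by rw [he]; positivity
  obtain ⟨h0, hh0⟩ : ∃ h0 : ℝ, h0 = e / (3 * Λ ^ 2) := ⟨_, rfl⟩
  have hh00 : 0 < h0 := by rw [hh0]; positivity
  have ha : 3 * Λ ^ 2 * h0 ≤ e := by
    rw [hh0]
    apply le_of_eq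
    field_simp
  obtain ⟨N, hN⟩ : ∃ N : ℕ, N = ⌈1 / (e * h0)⌉₊ + 3 := ⟨_, rfl⟩
  have hN3 : 3 ≤ N := by omega
  have hd' : 1 ≤ e * ((N - 2) * h0) := by
    have h1 : 1 / (e * h0) ≤ (N : ℝ) - 2 := by
      have := Nat.le_ceil (1 / (e * h0))
      rw [hN]
      push_cast
      linarith
    rw [div_le_iff₀ (by positivity)] at h1
    linarith
  obtain ⟨δ, hδ⟩ : ∃ δ : ℝ, δ = e * h0 / 4 := ⟨_, rfl⟩
  have hδ0 : 0 < δ := by rw [hδ]; positivity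
  obtain ⟨M, hM⟩ : ∃ M : ℝ, M = N * h0 := ⟨_, rfl⟩
  have hM0 : 0 ≤ M := by rw [hM]; positivity
  obtain ⟨d1, w1, κ1, hw1, hκ1, h1⟩ := pat_quench (τ := Unit) hn M Λ (ε / (8 * (N + 1))) δ hM0 hΛ0.le
    (by positivity) hδ0
  obtain ⟨w2, κ2, hw2, hκ2, h2⟩ := mom_quench hn M Λ (ε / 8) δ hM0 hΛ0.le (by positivity) hδ0
  obtain ⟨w3, B0, hw3, h3⟩ := edge hn M Λ (ε / 8) hM0 hΛ0.le (by positivity)
  obtain ⟨κ, hκ⟩ : ∃ κ : ℝ, κ = max (max κ1 κ2) ((M * (Λ + 1) + 1 + 2 * B0) / e + M) := ⟨_, rfl⟩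
  have hκ1' : κ1 ≤ κ := by rw [hκ]; exact (le_max_left _ _).trans (le_max_left _ _)
  have hκ2' : κ2 ≤ κ := by rw [hκ]; exact (le_max_right _ _).trans (le_max_left _ _)
  have hκ3' : (M * (Λ + 1) + 1 + 2 * B0) / e + M ≤ κ := by rw [hκ]; exact le_max_right _ _
  refine ⟨max d1 2, max (max w1 w2) w3, κ, by omega, by linarith, ?_⟩
  intro w hw C d hd
  filter_upwards [h1 w (by omega) C d (by omega), h2 w (by omega) C d (by omega), h3 w (by omega) C d (by omega),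
    hΛ w C d (by omega), ev_log_ge 1, ev_log_ge (2 / h0)] with X hX1 hX2 hX3 hX4 hL hL2 F Z Y K0 K hK hsz
  obtain ⟨L, hLd⟩ : ∃ L, L = Real.log (X : ℝ) ^ n := ⟨_, rfl⟩
  rw [← hLd] at hX1 hX2 hX3 hK ⊢
  have hLn : 1 ≤ L := by rw [hLd]; exact one_le_pow₀ hL
  have hL0 : 0 < L := by linarith
  have hlL : Real.log X ≤ L := by
    rw [hLd]
    calc Real.log X = Real.log X ^ 1 := (pow_one _).symm
      _ ≤ Real.log X ^ n := pow_le_pow_right₀ hL hn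
  have hhL : 2 ≤ h0 * L := by
    have h4 : 2 / h0 ≤ L := hL2.trans hlL
    rw [div_le_iff₀ hh00] at h4
    linarith
  have hK1 : κ1 * L ≤ K := (mul_le_mul_of_nonneg_right hκ1' hL0.le).trans hK
  have hK2 : κ2 * L ≤ K := (mul_le_mul_of_nonneg_right hκ2' hL0.le).trans hK
  have hBM : 0 ≤ (M * (Λ + 1) + 1 + 2 * B0) / e := by positivity
  have hK3 : M * L ≤ K := by
    have : M * L ≤ κ * L := mul_le_mul_of_nonneg_right (by linarith) hL0.le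
    linarith
  have hK4 : (M * (Λ + 1) + 1 + 2 * B0) * L ≤ e * K := by
    have h4 : (M * (Λ + 1) + 1 + 2 * B0) / e * L ≤ K :=
      (mul_le_mul_of_nonneg_right (show (M * (Λ + 1) + 1 + 2 * B0) / e ≤ κ by linarith) hL0.le).trans hK
    have h5 := mul_le_mul_of_nonneg_left h4 he0.le
    have e1 : e * ((M * (Λ + 1) + 1 + 2 * B0) / e * L) = (M * (Λ + 1) + 1 + 2 * B0) * L := by field_simp
    rwa [e1] at h5
  have hHm : ((gr h0 L N : ℕ) : ℝ) ≤ M * L := by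
    rw [hM]
    exact gr_le h0 L hh00.le hL0.le N
  have hHmK : gr h0 L N ≤ K := by exact_mod_cast hHm.trans hK3
  -- the bad sets
  obtain ⟨Q, hQ⟩ : ∃ Q : ℕ → Finset (Fin n → Fin d → ℤ), Q = fun j => (BoxN Z Y).filter (fun c =>
    ssw F w c ≤ Λ ∧ δ * K < |∑ k ∈ Ico K0 (K0 + K - gr h0 L N),
      (Ft (fe F) (fun _ : Unit => 0) (fun _ => gr h0 L j) (fun _ => 0) k c -
      PoJ (fun _ : Unit => ssw F w c * ((gr h0 L j : ℕ) / L)) {fun _ => 0})|) := ⟨_, rfl⟩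
  have hQb : ∀ j ∈ range (N + 1), ((Q j).card : ℝ) ≤ ε / (8 * (N + 1)) * (BoxN Z Y).card := by
    intro j hj
    rw [mem_range] at hj
    rw [hQ]
    exact hX1 F Z Y K0 K (gr h0 L N) (fun _ => 0) (fun _ => gr h0 L j) (fun _ => by
      rw [Nat.zero_add]
      exact gr_mono h0 L hh00.le hL0.le j N (by omega)) (fun t u htu => absurd (Subsingleton.elim t u) htu) hHm hK1
      hsz (fun _ => 0)
  obtain ⟨Q2, hQ2⟩ : ∃ Q2, Q2 = (BoxN Z Y).filter (fun c => ssw F w c ≤ Λ ∧ δ * K < |∑ k ∈ Ico K0 (K0 + K - gr h0 L N),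
      ((Np (fe F) (Ioc k (k + gr h0 L 1)) c : ℝ) - ssw F w c * ((gr h0 L 1 : ℕ) / L))|) := ⟨_, rfl⟩
  have hQ2b : (Q2.card : ℝ) ≤ ε / 8 * (BoxN Z Y).card := by
    rw [hQ2]
    exact hX2 F Z Y K0 K (gr h0 L N) (gr h0 L 1) (gr_mono h0 L hh00.le hL0.le 1 N (by omega)) hHm hK2 hsz
  obtain ⟨Q3, hQ3⟩ : ∃ Q3, Q3 = (BoxN Z Y).filter (fun c => ssw F w c ≤ Λ ∧
    (B0 : ℝ) < (Np (fe F) (Ioc K0 (K0 + gr h0 L N)) c : ℝ)) := ⟨_, rfl⟩
  have hQ3b : (Q3.card : ℝ) ≤ ε / 8 * (BoxN Z Y).card := by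
    rw [hQ3]
    exact hX3 F Z Y K0 K (gr h0 L N) hHm hsz K0 le_rfl (by omega)
  obtain ⟨Q4, hQ4⟩ : ∃ Q4, Q4 = (BoxN Z Y).filter (fun c => ssw F w c ≤ Λ ∧
    (B0 : ℝ) < (Np (fe F) (Ioc (K0 + K - gr h0 L N) (K0 + K - gr h0 L N + gr h0 L N)) c : ℝ)) := ⟨_, rfl⟩
  have hQ4b : (Q4.card : ℝ) ≤ ε / 8 * (BoxN Z Y).card := by
    rw [hQ4]
    exact hX3 F Z Y K0 K (gr h0 L N) hHm hsz (K0 + K - gr h0 L N) (by omega) (by omega)
  obtain ⟨Q5, hQ5⟩ : ∃ Q5, Q5 = (BoxN Z Y).filter (fun c => ¬ssw F w c ≤ Λ) := ⟨_, rfl⟩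
  have hQ5b : (Q5.card : ℝ) ≤ ε / 8 * (BoxN Z Y).card := by
    rw [hQ5]
    exact hX4 F Z Y (fun i j => (hsz i).side j)
  obtain ⟨S, hS⟩ : ∃ S, S = (BoxN Z Y).filter (fun c => ¬∀ t : ℝ, 0 ≤ t →
      |((cons (PrA (fe F) c) K0 K (t * L)).card : ℝ) - K / L *
        (ssw F w c * Real.exp (-(ssw F w c * t)))| ≤ ε * (K / L)) := ⟨_, rfl⟩
  rw [← hS]
  have hsub : S ⊆ ((((range (N + 1)).biUnion Q ∪ Q2) ∪ Q3) ∪ Q4) ∪ Q5 := by
    intro c hc
    by_contra hcon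
    simp only [mem_union, not_or] at hcon
    obtain ⟨⟨⟨⟨g1, g2⟩, g3⟩, g4⟩, g5⟩ := hcon
    rw [hS, mem_filter] at hc
    obtain ⟨hcB, hcA⟩ := hc
    have hcΛ : ssw F w c ≤ Λ := by
      by_contra h5
      exact g5 (by rw [hQ5]; exact mem_filter.2 ⟨hcB, h5⟩)
    apply hcA
    intro t ht
    have hKL : 0 ≤ (K : ℝ) / L := by positivity
    have hfin := det_gap (PrA (fe F) c) K0 K N B0 h0 L (ssw F w c) Λ δ e hh00 hhL hL0 (ssw_nonneg F w c) hcΛ hδ0.le he0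
      hN3 ha (by rw [hδ]; linarith) (by rw [← hM]; exact hK4) (by rw [← hM]; exact hK3) hd' (by
        intro j hj
        have g : ¬ c ∈ Q j := fun h => g1 (mem_biUnion.2 ⟨j, mem_range.2 (by omega), h⟩)
        rw [hQ] at g
        by_contra h5
        apply g
        rw [mem_filter]
        refine ⟨hcB, hcΛ, ?_⟩
        refine lt_of_lt_of_eq (not_le.1 h5) ?_
        congr 1
        rw [Finset.sum_sub_distrib, Finset.sum_const, nsmul_eq_mul, PoJ_unit, ← vd_card]) (by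
        by_contra h5
        apply g2
        rw [hQ2, mem_filter]
        refine ⟨hcB, hcΛ, ?_⟩
        refine lt_of_lt_of_eq (not_le.1 h5) ?_
        congr 1
        rw [Finset.sum_sub_distrib, Finset.sum_const, nsmul_eq_mul]
        rfl) (by
        by_contra h5
        apply g3
        rw [hQ3, mem_filter]
        refine ⟨hcB, hcΛ, ?_⟩
        rw [Np_np]
        exact_mod_cast not_le.1 h5) (by
        by_contra h5
        apply g4
        rw [hQ4, mem_filter]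
        refine ⟨hcB, hcΛ, ?_⟩
        have e1 : K0 + K - gr h0 L N + gr h0 L N = K0 + K := by omega
        rw [Np_np, e1]
        exact_mod_cast not_le.1 h5) t ht
    refine hfin.trans (le_of_eq ?_)
    rw [he]
    ring
  have hcard := card_le_card hsub
  have u1 := card_union_le ((((range (N + 1)).biUnion Q ∪ Q2) ∪ Q3) ∪ Q4) Q5
  have u2 := card_union_le (((range (N + 1)).biUnion Q ∪ Q2) ∪ Q3) Q4
  have u3 := card_union_le ((range (N + 1)).biUnion Q ∪ Q2) Q3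
  have u4 := card_union_le ((range (N + 1)).biUnion Q) Q2
  have u5 : (((range (N + 1)).biUnion Q).card : ℝ) ≤ ε / 8 * (BoxN Z Y).card := by
    have h5 : (((range (N + 1)).biUnion Q).card : ℝ) ≤ ∑ j ∈ range (N + 1), ((Q j).card : ℝ) := by
      exact_mod_cast card_biUnion_le
    refine h5.trans ((Finset.sum_le_sum hQb).trans (le_of_eq ?_))
    rw [Finset.sum_const, card_range, nsmul_eq_mul]
    push_cast
    field_simp
  have u6 : (S.card : ℝ) ≤ (((range (N + 1)).biUnion Q).card : ℝ) + Q2.card + Q3.card + Q4.card + Q5.card := by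
    exact_mod_cast (by omega : S.card ≤ ((range (N + 1)).biUnion Q).card + Q2.card + Q3.card + Q4.card + Q5.card)
  have u7 : (0 : ℝ) ≤ ε * (BoxN Z Y).card := by positivity
  linarith

end Pool.Agent.Q236.QG
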