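import Mathlib

set_option autoImplicit false

/-!
# Gaps and empty windows: the combinatorics
-/

namespace Pool.Agent.Q236.QG

open Finset

open Classical in
/-- the pairs of consecutive points of `P` in `(K0, K0 + K]` with a difference larger than `T` -/
noncomputable def cons (P : ℕ → Prop) (K0 K : ℕ) (T : ℝ) : Finset (ℕ × ℕ) :=
  (Ioc K0 (K0 + K) ×ˢ Ioc K0 (K0 + K)).filter (fun x => P x.1 ∧ P x.2 ∧ x.1 < x.2 ∧
    (∀ k, x.1 < k → k < x.2 → ¬P k) ∧ T < (x.2 : ℝ) - x.1)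

open Classical in
/-- the number of the points of `P` in `T` -/
noncomputable def np (P : ℕ → Prop) (T : Finset ℕ) : ℕ := (T.filter P).card

open Classical in
/-- the positions before an empty window -/
noncomputable def vd (P : ℕ → Prop) (J : Finset ℕ) (H : ℕ) : Finset ℕ :=
  J.filter (fun k => np P (Ioc k (k + H)) = 0)

lemma np_zero (P : ℕ → Prop) (k H : ℕ) : np P (Ioc k (k + H)) = 0 ↔ ∀ l, k < l → l ≤ k + H → ¬P l := by
  classical
  unfold np
  rw [card_eq_zero, filter_eq_empty_iff]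
  constructor
  · intro h l h1 h2
    exact h (mem_Ioc.2 ⟨h1, h2⟩)
  · intro h l hl
    rw [mem_Ioc] at hl
    exact h l hl.1 hl.2

lemma mem_vd (P : ℕ → Prop) (J : Finset ℕ) (H k : ℕ) : k ∈ vd P J H ↔ k ∈ J ∧ ∀ l, k < l → l ≤ k + H → ¬P l := by
  classical
  unfold vd
  rw [mem_filter, np_zero]

lemma mem_cons (P : ℕ → Prop) (K0 K : ℕ) (T : ℝ) (x : ℕ × ℕ) : x ∈ cons P K0 K T ↔
    (K0 < x.1 ∧ x.1 ≤ K0 + K) ∧ (K0 < x.2 ∧ x.2 ≤ K0 + K) ∧ P x.1 ∧ P x.2 ∧ x.1 < x.2 ∧
    (∀ k, x.1 < k → k < x.2 → ¬P k) ∧ T < (x.2 : ℝ) - x.1 := by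
  classical
  unfold cons
  rw [mem_filter, mem_product, mem_Ioc, mem_Ioc]
  tauto

lemma cons_mono (P : ℕ → Prop) (K0 K : ℕ) (T T' : ℝ) (h : T ≤ T') : (cons P K0 K T').card ≤ (cons P K0 K T).card := by
  apply card_le_card
  intro x hx
  rw [mem_cons] at hx ⊢
  obtain ⟨h1, h2, h3, h4, h5, h6, h7⟩ := hx
  exact ⟨h1, h2, h3, h4, h5, h6, lt_of_le_of_lt h h7⟩

/-- the second point determines the first -/
lemma cons_inj (P : ℕ → Prop) (K0 K : ℕ) (T : ℝ) (x y : ℕ × ℕ) (hx : x ∈ cons P K0 K T) (hy : y ∈ cons P K0 K T)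
    (h : x.2 = y.2) : x = y := by
  rw [mem_cons] at hx hy
  obtain ⟨_, _, a3, _, a5, a6, _⟩ := hx
  obtain ⟨_, _, b3, _, b5, b6, _⟩ := hy
  have h1 : x.1 = y.1 := by
    rcases lt_trichotomy x.1 y.1 with h2 | h2 | h2
    · exact absurd b3 (a6 y.1 h2 (by omega))
    · exact h2
    · exact absurd a3 (b6 x.1 h2 (by omega))
  exact Prod.ext h1 h

/-- many positions before windows which are empty up to `H1` but not up to `H2` give many gaps -/
lemma gap_lower (P : ℕ → Prop) (K0 K Hm H1 H2 : ℕ) (T : ℝ) (h12 : H1 ≤ H2) (h2m : H2 ≤ Hm) (hT : T < H1 + 1) :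
    (vd P (Ico K0 (K0 + K - Hm)) H1).card ≤
      (vd P (Ico K0 (K0 + K - Hm)) H2).card + (H2 - H1) * ((cons P K0 K T).card + 1) := by
  classical
  obtain ⟨J, hJ⟩ : ∃ J, J = Ico K0 (K0 + K - Hm) := ⟨_, rfl⟩
  rw [← hJ]
  obtain ⟨A, hA⟩ : ∃ A, A = (Ioc K0 (K0 + K)).filter P := ⟨_, rfl⟩
  obtain ⟨Q1, hQ1⟩ : ∃ Q1, Q1 = A.filter (fun q => ∀ p ∈ A, q ≤ p) := ⟨_, rfl⟩
  obtain ⟨Q2, hQ2⟩ : ∃ Q2, Q2 = (cons P K0 K T).image Prod.snd := ⟨_, rfl⟩
  have hc1 : Q1.card ≤ 1 := by
    rw [card_le_one]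
    intro a ha b hb
    rw [hQ1, mem_filter] at ha hb
    exact le_antisymm (ha.2 b hb.1) (hb.2 a ha.1)
  have hc2 : Q2.card ≤ (cons P K0 K T).card := by
    rw [hQ2]
    exact card_image_le
  have hsub : vd P J H1 ⊆ vd P J H2 ∪ (Q1 ∪ Q2).biUnion (fun q => Ico (q - H2) (q - H1)) := by
    intro k hk
    rw [mem_union]
    by_cases hk2 : k ∈ vd P J H2
    · exact Or.inl hk2
    · right
      rw [mem_vd] at hk hk2
      obtain ⟨hkJ, hk1⟩ := hk
      have hex : ∃ l, k < l ∧ P l := by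
        by_contra hcon
        push Not at hcon
        exact hk2 ⟨hkJ, fun l hl _ => hcon l hl⟩
      have hex2 : ∃ l, k < l ∧ l ≤ k + H2 ∧ P l := by
        by_contra hcon
        push Not at hcon
        exact hk2 ⟨hkJ, hcon⟩
      obtain ⟨l, hl1, hl2, hl3⟩ := hex2
      obtain ⟨q, hq⟩ : ∃ q, q = Nat.find hex := ⟨_, rfl⟩
      have hq1 : k < q ∧ P q := by rw [hq]; exact Nat.find_spec hex
      have hq2 : ∀ m, m < q → ¬(k < m ∧ P m) := by
        intro m hm
        rw [hq] at hm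
        exact Nat.find_min hex hm
      have hql : q ≤ l := by
        by_contra hcon
        exact hq2 l (by omega) ⟨hl1, hl3⟩
      have hqH : k + H1 < q := by
        by_contra hcon
        exact hk1 q hq1.1 (by omega) hq1.2
      rw [hJ, mem_Ico] at hkJ
      have hqA : q ∈ A := by
        rw [hA, mem_filter, mem_Ioc]
        exact ⟨⟨by omega, by omega⟩, hq1.2⟩
      rw [mem_biUnion]
      refine ⟨q, ?_, mem_Ico.2 ⟨by omega, by omega⟩⟩
      rw [mem_union]
      by_cases hmin : ∀ p ∈ A, q ≤ p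
      · left
        rw [hQ1, mem_filter]
        exact ⟨hqA, hmin⟩
      · right
        push Not at hmin
        obtain ⟨p0, hp0, hp0q⟩ := hmin
        have hne : (A.filter (fun p => p < q)).Nonempty := ⟨p0, mem_filter.2 ⟨hp0, hp0q⟩⟩
        obtain ⟨p, hp⟩ : ∃ p, p = (A.filter (fun p => p < q)).max' hne := ⟨_, rfl⟩
        have hpm : p ∈ A.filter (fun p => p < q) := by rw [hp]; exact max'_mem _ _
        rw [mem_filter] at hpm
        have hpmax : ∀ j ∈ A, j < q → j ≤ p := by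
          intro j hj hjq
          rw [hp]
          exact le_max' _ _ (mem_filter.2 ⟨hj, hjq⟩)
        have hpA := hpm.1
        rw [hA, mem_filter, mem_Ioc] at hpA hqA
        have hpk : p ≤ k := by
          by_contra hcon
          exact hq2 p hpm.2 ⟨by omega, hpA.2⟩
        rw [hQ2, mem_image]
        refine ⟨(p, q), ?_, rfl⟩
        rw [mem_cons]
        refine ⟨hpA.1, hqA.1, hpA.2, hqA.2, hpm.2, ?_, ?_⟩
        · intro j hj1 hj2 hj3
          simp only at hj1 hj2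
          have : j ∈ A := by
            rw [hA, mem_filter, mem_Ioc]
            exact ⟨⟨by omega, by omega⟩, hj3⟩
          have := hpmax j this hj2
          omega
        · simp only
          have h5 : p + (H1 + 1) ≤ q := by omega
          have h6 : (p : ℝ) + (H1 + 1) ≤ q := by exact_mod_cast h5
          linarith
  have h1 := card_le_card hsub
  have h2 : ((Q1 ∪ Q2).biUnion (fun q => Ico (q - H2) (q - H1))).card ≤ (Q1 ∪ Q2).card * (H2 - H1) := by
    apply card_biUnion_le_card_mul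
    intro q _
    rw [Nat.card_Ico]
    omega
  have h3 : (Q1 ∪ Q2).card ≤ (cons P K0 K T).card + 1 := (card_union_le _ _).trans (by omega)
  have h4 := h1.trans (card_union_le _ _)
  have h5 : (Q1 ∪ Q2).card * (H2 - H1) ≤ (H2 - H1) * ((cons P K0 K T).card + 1) := by
    rw [mul_comm]
    exact Nat.mul_le_mul_left _ h3
  omega

/-- gaps give positions before windows which are empty up to `H1` but not up to `H2` -/
lemma gap_upper (P : ℕ → Prop) (K0 K Hm H1 H2 : ℕ) (T : ℝ) (h12 : H1 ≤ H2) (hT : (H2 : ℝ) ≤ T)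
    (hmK : Hm ≤ K) : (H2 - H1) * (cons P K0 K T).card + (vd P (Ico K0 (K0 + K - Hm)) H2).card ≤
      (vd P (Ico K0 (K0 + K - Hm)) H1).card + (H2 - H1) * np P (Ioc (K0 + K - Hm) (K0 + K)) := by
  classical
  obtain ⟨J, hJ⟩ : ∃ J, J = Ico K0 (K0 + K - Hm) := ⟨_, rfl⟩
  rw [← hJ]
  obtain ⟨CA, hCA⟩ : ∃ CA, CA = (cons P K0 K T).filter (fun x => x.2 ≤ K0 + K - Hm) := ⟨_, rfl⟩
  obtain ⟨CB, hCB⟩ : ∃ CB, CB = (cons P K0 K T).filter (fun x => ¬ x.2 ≤ K0 + K - Hm) := ⟨_, rfl⟩
  have hsplit : CA.card + CB.card = (cons P K0 K T).card := by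
    rw [hCA, hCB]
    exact card_filter_add_card_filter_not _
  have hB : CB.card ≤ np P (Ioc (K0 + K - Hm) (K0 + K)) := by
    unfold np
    apply card_le_card_of_injOn Prod.snd
    · intro x hx
      rw [mem_coe, hCB, mem_filter, mem_cons] at hx
      rw [mem_coe, mem_filter, mem_Ioc]
      exact ⟨⟨by omega, hx.1.2.1.2⟩, hx.1.2.2.2.1⟩
    · intro x hx y hy hxy
      rw [mem_coe, hCB, mem_filter] at hx hy
      exact cons_inj P K0 K T x y hx.1 hy.1 hxy
  have hA : CA.card * (H2 - H1) + (vd P J H2).card ≤ (vd P J H1).card := by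
    have e1 : (CA ×ˢ Ioc H1 H2).card = CA.card * (H2 - H1) := by
      rw [card_product, Nat.card_Ioc]
    have hsub2 : vd P J H2 ⊆ vd P J H1 := by
      intro k hk
      rw [mem_vd] at hk ⊢
      exact ⟨hk.1, fun l h1 h2 => hk.2 l h1 (by omega)⟩
    have e2 : (vd P J H1 \ vd P J H2).card = (vd P J H1).card - (vd P J H2).card := card_sdiff_of_subset hsub2
    have h1 : (CA ×ˢ Ioc H1 H2).card ≤ (vd P J H1 \ vd P J H2).card := by
      apply card_le_card_of_injOn (fun y => y.1.2 - y.2)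
      · intro y hy
        rw [mem_coe, mem_product, hCA, mem_filter, mem_cons, mem_Ioc] at hy
        obtain ⟨⟨⟨⟨a1, a2⟩, ⟨a3, a4⟩, a5, a6, a7, a8, a9⟩, a10⟩, a11, a12⟩ := hy
        have h13 : ((H2 + y.1.1 : ℕ) : ℝ) < y.1.2 := by
          push_cast
          linarith
        have h14 : H2 + y.1.1 < y.1.2 := by exact_mod_cast h13
        beta_reduce
        rw [mem_coe, mem_sdiff, mem_vd, mem_vd]
        have hkJ : y.1.2 - y.2 ∈ J := by
          rw [hJ, mem_Ico]
          exact ⟨by omega, by omega⟩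
        refine ⟨⟨hkJ, ?_⟩, ?_⟩
        · intro l hl1 hl2
          exact a8 l (by omega) (by omega)
        · rintro ⟨_, h15⟩
          exact h15 y.1.2 (by omega) (by omega) a6
      · intro y hy z hz hyz
        rw [mem_coe, mem_product, hCA, mem_filter, mem_Ioc] at hy hz
        obtain ⟨⟨a0, a10⟩, a11, a12⟩ := hy
        obtain ⟨⟨b0, b10⟩, b11, b12⟩ := hz
        have a0' := a0
        have b0' := b0
        rw [mem_cons] at a0' b0'
        obtain ⟨⟨a1, a2⟩, ⟨a3, a4⟩, a5, a6, a7, a8, a9⟩ := a0'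
        obtain ⟨⟨b1, b2⟩, ⟨b3, b4⟩, b5, b6, b7, b8, b9⟩ := b0'
        have h13 : ((H2 + y.1.1 : ℕ) : ℝ) < y.1.2 := by
          push_cast
          linarith
        have h14 : H2 + y.1.1 < y.1.2 := by exact_mod_cast h13
        have h15 : ((H2 + z.1.1 : ℕ) : ℝ) < z.1.2 := by
          push_cast
          linarith
        have h16 : H2 + z.1.1 < z.1.2 := by exact_mod_cast h15
        simp only at hyz
        have h17 : y.1.2 = z.1.2 := by
          rcases lt_trichotomy y.1.2 z.1.2 with h | h | h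
          · exact absurd a6 (b8 y.1.2 (by omega) h)
          · exact h
          · exact absurd b6 (a8 z.1.2 (by omega) h)
        have h18 := cons_inj P K0 K T y.1 z.1 a0 b0 h17
        refine Prod.ext h18 ?_
        omega
    rw [e1, e2] at h1
    have := card_le_card hsub2
    omega
  rw [← hsplit, mul_add]
  have h3 := Nat.mul_le_mul_left (H2 - H1) hB
  rw [mul_comm CA.card] at hA
  omega

/-- the number of points from the numbers in the windows -/
lemma count_upper (P : ℕ → Prop) (K0 K Hm H : ℕ) (hHm : H ≤ Hm) (hmK : Hm ≤ K) :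
    H * np P (Ioc K0 (K0 + K)) ≤ ∑ k ∈ Ico K0 (K0 + K - Hm), np P (Ioc k (k + H)) +
      H * (np P (Ioc K0 (K0 + H)) + np P (Ioc (K0 + K - Hm) (K0 + K))) := by
  classical
  obtain ⟨M, hM⟩ : ∃ M, M = Ioc (K0 + H) (K0 + K - Hm) := ⟨_, rfl⟩
  have h1 : np P (Ioc K0 (K0 + K)) ≤ np P M + (np P (Ioc K0 (K0 + H)) + np P (Ioc (K0 + K - Hm) (K0 + K))) := by
    have hsub : (Ioc K0 (K0 + K)).filter P ⊆ M.filter P ∪ ((Ioc K0 (K0 + H)).filter P ∪
        (Ioc (K0 + K - Hm) (K0 + K)).filter P) := by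
      intro q hq
      rw [mem_filter, mem_Ioc] at hq
      rw [mem_union, mem_union, mem_filter, mem_filter, mem_filter, hM, mem_Ioc, mem_Ioc, mem_Ioc]
      rcases Nat.lt_or_ge (K0 + H) q with h | h
      · rcases Nat.lt_or_ge (K0 + K - Hm) q with h2 | h2
        · exact Or.inr (Or.inr ⟨⟨h2, hq.1.2⟩, hq.2⟩)
        · exact Or.inl ⟨⟨h, h2⟩, hq.2⟩
      · exact Or.inr (Or.inl ⟨⟨hq.1.1, h⟩, hq.2⟩)
    have h2 := (card_le_card hsub).trans (card_union_le _ _)
    have h3 := card_union_le ((Ioc K0 (K0 + H)).filter P) ((Ioc (K0 + K - Hm) (K0 + K)).filter P)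
    unfold np
    omega
  have h2 : H * np P M ≤ ∑ k ∈ Ico K0 (K0 + K - Hm), np P (Ioc k (k + H)) := by
    have e1 : ∑ k ∈ Ico K0 (K0 + K - Hm), np P (Ioc k (k + H)) =
        ((Ico K0 (K0 + K - Hm)).sigma (fun k => (Ioc k (k + H)).filter P)).card := by
      rw [card_sigma]
      rfl
    have e2 : H * np P M = ((M.filter P).sigma (fun q => Ico (q - H) q)).card := by
      rw [card_sigma]
      have : ∀ q ∈ M.filter P, (Ico (q - H) q).card = H := by
        intro q hq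
        rw [mem_filter, hM, mem_Ioc] at hq
        rw [Nat.card_Ico]
        omega
      rw [Finset.sum_congr rfl this, Finset.sum_const, smul_eq_mul, mul_comm]
      rfl
    rw [e1, e2]
    apply card_le_card_of_injOn (fun x => ⟨x.2, x.1⟩)
    · rintro ⟨q, k⟩ hx
      rw [mem_coe, mem_sigma, mem_filter, hM, mem_Ioc, mem_Ico] at hx
      rw [mem_coe, mem_sigma, mem_Ico, mem_filter, mem_Ioc]
      simp only at hx ⊢
      obtain ⟨⟨⟨a1, a2⟩, a3⟩, a4, a5⟩ := hx
      exact ⟨⟨by omega, by omega⟩, ⟨by omega, by omega⟩, a3⟩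
    · rintro ⟨q, k⟩ _ ⟨q', k'⟩ _ h
      simp only [Sigma.mk.injEq, heq_eq_eq] at h
      obtain ⟨h3, h4⟩ := h
      rw [h3, h4]
  have h3 := Nat.mul_le_mul_left H h1
  rw [mul_add] at h3
  omega

end Pool.Agent.Q236.QG
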