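import Pool.Agent.Q236.QG.Qn

set_option autoImplicit false

/-!
# The number of prime points in windows along a typical polynomial
-/

namespace Pool.Agent.Q236.QG

open Finset Filter Polynomial
open Pool.Agent.Q236.RP Pool.Agent.Q236.UL Pool.Agent.Q236.FL

variable {n : ℕ}

/-- **First and second moments in windows** -/
theorem mom_int (hn : 1 ≤ n) (t0 Λ η : ℝ) (ht0 : 0 ≤ t0) (hΛ : 0 ≤ Λ) (hη : 0 < η) :
    ∃ w0 : ℕ, 2 ≤ w0 ∧ ∀ w : ℕ, w0 ≤ w → ∀ C d : ℕ, 2 ≤ d → ∀ᶠ X : ℕ in atTop,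
    ∀ (F : Fin n → ℤ[X]) (Z : Fin n → Fin d → ℤ) (Y : Fin n → Fin d → ℕ) (K0 K H h : ℕ), h ≤ H →
    (H : ℝ) ≤ t0 * Real.log X ^ n → (∀ i, SZ C X (fe F i) (Z i) (Y i) (Ioc K0 (K0 + K))) →
    ∀ c0 : Fin n → Fin d → ℤ, ssw F w c0 ≤ Λ →
    (∀ k, K0 ≤ k → k + H ≤ K0 + K →
      |∑ c ∈ OmN w Z Y c0, (Np (fe F) (Ioc k (k + h)) c : ℝ) - (OmN w Z Y c0).card *
        (ssw F w c0 * (h / Real.log X ^ n))| ≤ η * (OmN w Z Y c0).card ∧
      ∑ c ∈ OmN w Z Y c0, (Np (fe F) (Ioc k (k + h)) c : ℝ) ^ 2 ≤ (Λ * t0 + 2 + η) ^ 2 * (OmN w Z Y c0).card) ∧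
    (∀ k l, K0 ≤ k → k + H ≤ l → l + H ≤ K0 + K →
      |∑ c ∈ OmN w Z Y c0, (Np (fe F) (Ioc k (k + h)) c : ℝ) * Np (fe F) (Ioc l (l + h)) c - (OmN w Z Y c0).card *
        (ssw F w c0 * (h / Real.log X ^ n)) ^ 2| ≤ η * (OmN w Z Y c0).card) := by
  classical
  obtain ⟨X0, hSS⟩ := few_unif n (2 * (t0 + 1)) 1 one_pos
  obtain ⟨η', hη'⟩ : ∃ η' : ℝ, η' = min (1 / 4) (η / 4) := ⟨_, rfl⟩
  have hη'0 : 0 < η' := by rw [hη']; positivity
  have hη'1 : η' ≤ 1 / 4 := by rw [hη']; exact min_le_left _ _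
  have hη'2 : η' ≤ η / 4 := by rw [hη']; exact min_le_right _ _
  obtain ⟨w1, hw1, h1⟩ := mom_class (τ := Unit) (n := n) hn 2 (2 * (t0 + 1)) η' (by positivity) hη'0 _ hSS
  obtain ⟨w2, hw2, h2⟩ := mom_class (τ := Bool) (n := n) hn 2 (2 * (t0 + 1)) η' (by positivity) hη'0 _ hSS
  refine ⟨max w1 w2, by omega, ?_⟩
  intro w hw C d hd
  obtain ⟨G, hG⟩ : ∃ G : ℝ, G = 2 * (Λ * t0 + 1) + 1 := ⟨_, rfl⟩
  have hG0 : 0 < G := by rw [hG]; positivity
  filter_upwards [h1 w (by omega) C d hd, h2 w (by omega) C d hd, ev_log_ge 1, eventually_ge_atTop (X0 C),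
    small_w hn w (min 1 (η' / G)) (by positivity)] with X hX1 hX2 hL hX0 hsm F Z Y K0 K H h hhH hH hsz c0 hc0
  have hL0 : 0 < Real.log (X : ℝ) := by linarith
  obtain ⟨x, hx⟩ : ∃ x, x = ssw F w c0 * (h / Real.log X ^ n) := ⟨_, rfl⟩
  have hx0 : 0 ≤ x := by
    rw [hx]
    have := ssw_nonneg F w c0
    positivity
  have hxΛ : x ≤ Λ * t0 := by
    rw [hx]
    apply mul_le_mul hc0 _ (by positivity) hΛ
    rw [div_le_iff₀ (by positivity)]
    exact le_trans (by exact_mod_cast hhH) hH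
  have hclose : ∀ k, |xp (fe F) w X (Ioc k (k + h)) c0 - x| ≤ min 1 (η' / G) := by
    intro k
    rw [hx]
    exact (xp_interval F w X k h c0 hL0).trans hsm
  have hxp0 : ∀ k, 0 ≤ xp (fe F) w X (Ioc k (k + h)) c0 := fun k => xp_nonneg (fe F) w X _ c0 hL0.le
  have hxp1 : ∀ k, xp (fe F) w X (Ioc k (k + h)) c0 ≤ Λ * t0 + 1 := by
    intro k
    have := (abs_le.1 ((hclose k).trans (min_le_left _ _))).2
    linarith
  have hG1 : 1 ≤ G := by rw [hG]; nlinarith [mul_nonneg hΛ ht0]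
  have hcl1 : ∀ k, |xp (fe F) w X (Ioc k (k + h)) c0 - x| ≤ η' := by
    intro k
    refine ((hclose k).trans (min_le_right _ _)).trans ?_
    exact div_le_self hη'0.le hG1
  have hcl2 : ∀ k l, |xp (fe F) w X (Ioc k (k + h)) c0 * xp (fe F) w X (Ioc l (l + h)) c0 - x ^ 2| ≤ η' := by
    intro k l
    have a1 := (hclose k).trans (min_le_right _ _)
    have a2 := (hclose l).trans (min_le_right _ _)
    have e : xp (fe F) w X (Ioc k (k + h)) c0 * xp (fe F) w X (Ioc l (l + h)) c0 - x ^ 2 =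
        xp (fe F) w X (Ioc l (l + h)) c0 * (xp (fe F) w X (Ioc k (k + h)) c0 - x) +
        x * (xp (fe F) w X (Ioc l (l + h)) c0 - x) := by ring
    rw [e]
    refine (abs_add_le _ _).trans ?_
    rw [abs_mul, abs_mul, abs_of_nonneg (hxp0 l), abs_of_nonneg hx0]
    have a3 := mul_le_mul (hxp1 l) a1 (abs_nonneg _) (by nlinarith [mul_nonneg hΛ ht0])
    have a4 := mul_le_mul (show x ≤ Λ * t0 + 1 by linarith) a2 (abs_nonneg _) (by nlinarith [mul_nonneg hΛ ht0])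
    have e2 : (Λ * t0 + 1) * (η' / G) + (Λ * t0 + 1) * (η' / G) = (G - 1) * (η' / G) := by rw [hG]; ring
    have e3 : (G - 1) * (η' / G) ≤ G * (η' / G) := mul_le_mul_of_nonneg_right (by linarith) (by positivity)
    have e4 : G * (η' / G) = η' := by field_simp
    linarith
  obtain ⟨W, hW⟩ : ∃ W : ℝ, W = ((OmN w Z Y c0).card : ℝ) := ⟨_, rfl⟩
  have hW0 : 0 ≤ W := by rw [hW]; exact Nat.cast_nonneg _
  rw [← hW, ← hx]
  have hWη : W * η' ≤ η / 4 * W := by nlinarith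
  constructor
  · intro k hk1 hk2
    have hsub : Ioc k (k + h) ⊆ Ioc K0 (K0 + K) := by
      intro y hy
      rw [mem_Ioc] at hy ⊢
      omega
    have hAl : Al (fun _ : Unit => Ioc k (k + h)) = Ioc k (k + h) := by
      unfold Al
      ext y
      simp
    have hdis : ∀ t u : Unit, t ≠ u → Disjoint (Ioc k (k + h)) (Ioc k (k + h)) := fun t u htu =>
      absurd (Subsingleton.elim t u) htu
    have hspr : ∃ C : ℕ, X0 C ≤ X ∧ Spr n (2 * (t0 + 1)) 1 C X (Al (fun _ : Unit => Ioc k (k + h))) := by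
      refine ⟨C, hX0, spr_two hn t0 C X k k H _ ?_ hH hL ?_⟩
      · rw [hAl]
        intro y hy
        rw [mem_Ioc] at hy
        rw [mem_union, mem_Ioc]
        exact Or.inl ⟨by omega, by omega⟩
      · rw [hAl]
        intro y hy
        exact (hsz ⟨0, by omega⟩).pts y (hsub hy)
    have g := fun κ hκ => hX1 (fe F) Z Y (fun _ : Unit => Ioc k (k + h)) hdis hspr
      (fun i => by rw [hAl]; exact (hsz i).mono hsub) c0 κ hκ
    have g1 := g (fun _ => 1) (by simp)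
    have g2 := g (fun _ => 2) (by simp)
    rw [← hW] at g1 g2
    simp only [Finset.univ_unique, Finset.prod_singleton, Nat.choose_one_right, pow_one, Nat.factorial_one,
      Nat.cast_one, div_one] at g1
    simp only [Finset.univ_unique, Finset.prod_singleton, Nat.factorial_two, Nat.cast_ofNat] at g2
    obtain ⟨y, hy⟩ : ∃ y, y = xp (fe F) w X (Ioc k (k + h)) c0 := ⟨_, rfl⟩
    have hy0 := hxp0 k
    have hy1 := hxp1 k
    have hcy := hcl1 k
    rw [← hy] at g1 g2 hy0 hy1 hcy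
    constructor
    · have a1 := mul_le_mul_of_nonneg_left hcy hW0
      rw [← abs_of_nonneg hW0, ← abs_mul, abs_of_nonneg hW0, mul_sub] at a1
      obtain ⟨c1, c2⟩ := abs_le.1 g1
      obtain ⟨c3, c4⟩ := abs_le.1 a1
      have b1 : η' * W ≤ η / 4 * W := mul_le_mul_of_nonneg_right hη'2 hW0
      rw [abs_le]
      have b2 : 0 ≤ η * W := by positivity
      constructor <;> linarith
    · have e1 : ∀ c ∈ OmN w Z Y c0, (Np (fe F) (Ioc k (k + h)) c : ℝ) ^ 2 =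
          2 * ((Np (fe F) (Ioc k (k + h)) c).choose 2 : ℝ) + Np (fe F) (Ioc k (k + h)) c := by
        intro c _
        rw [Nat.cast_choose_two]
        ring
      rw [Finset.sum_congr rfl e1, Finset.sum_add_distrib, ← Finset.mul_sum]
      have c2 := (abs_le.1 g1).2
      have c4 := (abs_le.1 g2).2
      have b1 : η' * W ≤ 1 / 4 * W := mul_le_mul_of_nonneg_right hη'1 hW0
      have b2 : W * (y ^ 2 / 2) * 2 = W * y ^ 2 := by ring
      have b3 : y ^ 2 + y + 1 ≤ (Λ * t0 + 2 + η) ^ 2 := by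
        have : y + 1 ≤ Λ * t0 + 2 + η := by linarith
        nlinarith
      have b4 := mul_le_mul_of_nonneg_right b3 hW0
      nlinarith
  · intro k l hk1 hkl hl
    obtain ⟨T, hT⟩ : ∃ T : Bool → Finset ℕ, T = fun b => if b then Ioc k (k + h) else Ioc l (l + h) := ⟨_, rfl⟩
    have hTt : T true = Ioc k (k + h) := by rw [hT]; simp
    have hTf : T false = Ioc l (l + h) := by rw [hT]; simp
    have hTsub : ∀ b, T b ⊆ Ioc k (k + H) ∪ Ioc l (l + H) := by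
      intro b y hy
      rcases b with b | b
      · rw [hTf, mem_Ioc] at hy
        rw [mem_union, mem_Ioc, mem_Ioc]
        exact Or.inr ⟨by omega, by omega⟩
      · rw [hTt, mem_Ioc] at hy
        rw [mem_union, mem_Ioc, mem_Ioc]
        exact Or.inl ⟨by omega, by omega⟩
    have hAl : Al T ⊆ Ioc k (k + H) ∪ Ioc l (l + H) := by
      intro y hy
      unfold Al at hy
      rw [mem_biUnion] at hy
      obtain ⟨b, _, hb⟩ := hy
      exact hTsub b hb
    have hsub : Ioc k (k + H) ∪ Ioc l (l + H) ⊆ Ioc K0 (K0 + K) := by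
      intro y hy
      rw [mem_union, mem_Ioc, mem_Ioc] at hy
      rw [mem_Ioc]
      omega
    have hdis : ∀ t u : Bool, t ≠ u → Disjoint (T t) (T u) := by
      have key : Disjoint (T true) (T false) := by
        rw [hTt, hTf, Finset.disjoint_left]
        intro y h1 h2
        rw [mem_Ioc] at h1 h2
        omega
      intro t u htu
      rcases t with t | t <;> rcases u with u | u
      · exact absurd rfl htu
      · exact key.symm
      · exact key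
      · exact absurd rfl htu
    have hspr : ∃ C : ℕ, X0 C ≤ X ∧ Spr n (2 * (t0 + 1)) 1 C X (Al T) := by
      refine ⟨C, hX0, spr_two hn t0 C X k l H _ hAl hH hL ?_⟩
      intro y hy
      exact (hsz ⟨0, by omega⟩).pts y (hsub (hAl hy))
    have g := hX2 (fe F) Z Y T hdis hspr (fun i => (hsz i).mono (hAl.trans hsub)) c0 (fun _ => 1) (by simp)
    rw [← hW] at g
    simp only [Fintype.prod_bool, Nat.choose_one_right, pow_one, Nat.factorial_one, Nat.cast_one, div_one,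
      hTt, hTf] at g
    have a1 := mul_le_mul_of_nonneg_left (hcl2 k l) hW0
    rw [← abs_of_nonneg hW0, ← abs_mul, abs_of_nonneg hW0, mul_sub] at a1
    obtain ⟨c1, c2⟩ := abs_le.1 g
    obtain ⟨c3, c4⟩ := abs_le.1 a1
    have b1 : η' * W ≤ η / 4 * W := mul_le_mul_of_nonneg_right hη'2 hW0
    rw [abs_le]
    have b2 : 0 ≤ η * W := by positivity
    constructor <;> linarith

open Classical in
/-- **The sum over the positions of the numbers of prime points in the windows** -/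
theorem mom_quench (hn : 1 ≤ n) (t0 Λ ε δ : ℝ) (ht0 : 0 ≤ t0) (hΛ : 0 ≤ Λ)
    (hε : 0 < ε) (hδ : 0 < δ) : ∃ (w0 : ℕ) (κ : ℝ), 2 ≤ w0 ∧ 0 < κ ∧
    ∀ w : ℕ, w0 ≤ w → ∀ C d : ℕ, 2 ≤ d → ∀ᶠ X : ℕ in atTop,
    ∀ (F : Fin n → ℤ[X]) (Z : Fin n → Fin d → ℤ) (Y : Fin n → Fin d → ℕ) (K0 K H h : ℕ), h ≤ H →
    (H : ℝ) ≤ t0 * Real.log X ^ n → κ * Real.log X ^ n ≤ K →
    (∀ i, SZ C X (fe F i) (Z i) (Y i) (Ioc K0 (K0 + K))) →
    (((BoxN Z Y).filter (fun c => ssw F w c ≤ Λ ∧ δ * K < |∑ k ∈ Ico K0 (K0 + K - H), ((Np (fe F) (Ioc k (k + h)) c : ℝ) -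
      ssw F w c * (h / Real.log X ^ n))|)).card : ℝ) ≤ ε * (BoxN Z Y).card := by
  obtain ⟨M, hM⟩ : ∃ M : ℝ, M = Λ * t0 + 3 := ⟨_, rfl⟩
  have hM3 : 3 ≤ M := by rw [hM]; nlinarith [mul_nonneg hΛ ht0]
  obtain ⟨η, hη⟩ : ∃ η : ℝ, η = min 1 (δ ^ 2 * ε / (4 * M)) := ⟨_, rfl⟩
  have hη0 : 0 < η := by rw [hη]; positivity
  have hη1 : η ≤ 1 := by rw [hη]; exact min_le_left _ _
  have hη2 : 2 * M * η ≤ δ ^ 2 * ε / 2 := by
    have h1 : η ≤ δ ^ 2 * ε / (4 * M) := by rw [hη]; exact min_le_right _ _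
    rw [le_div_iff₀ (by positivity)] at h1
    linarith
  obtain ⟨w0, hw0, h0⟩ := mom_int hn t0 Λ η ht0 hΛ hη0
  obtain ⟨κ, hκ⟩ : ∃ κ : ℝ, κ = 4 * t0 * (2 * M ^ 2) / (δ ^ 2 * ε) + 1 := ⟨_, rfl⟩
  have hκ0 : 0 < κ := by rw [hκ]; positivity
  have hκ1 : 2 * (2 * M ^ 2) * t0 ≤ δ ^ 2 * ε / 2 * κ := by
    rw [hκ, mul_add, mul_one]
    have e : δ ^ 2 * ε / 2 * (4 * t0 * (2 * M ^ 2) / (δ ^ 2 * ε)) = 2 * (2 * M ^ 2) * t0 := by field_simp; ring
    rw [e]
    have : 0 < δ ^ 2 * ε / 2 := by positivity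
    linarith
  refine ⟨w0, κ, hw0, hκ0, ?_⟩
  intro w hw C d hd
  filter_upwards [h0 w hw C d hd, ev_log_ge 1] with X hX hL F Z Y K0 K H h hhH hH hK hsz
  have hL0 : 0 < Real.log (X : ℝ) := by linarith
  have hLn : 0 < Real.log (X : ℝ) ^ n := by positivity
  have hKp : (0 : ℝ) < K := lt_of_lt_of_le (by positivity) hK
  apply glob_bad w Z Y _ (fun c => ssw F w c ≤ Λ) (fun a c h1 h2 => by rw [← ssw_rs F w a c h1]; exact h2) ε hε.le
  intro c0 hc0
  obtain ⟨m, hm⟩ : ∃ m, m = ssw F w c0 * (h / Real.log X ^ n) := ⟨_, rfl⟩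
  have hm0 : 0 ≤ m := by
    rw [hm]
    have := ssw_nonneg F w c0
    positivity
  have hm1 : m ≤ Λ * t0 := by
    rw [hm]
    apply mul_le_mul hc0 _ (by positivity) hΛ
    rw [div_le_iff₀ (by positivity)]
    exact le_trans (by exact_mod_cast hhH) hH
  obtain ⟨h1, h2⟩ := hX F Z Y K0 K H h hhH hH hsz c0 hc0
  rw [← hm] at h1 h2
  obtain ⟨J, hJ⟩ : ∃ J, J = Ico K0 (K0 + K - H) := ⟨_, rfl⟩
  have hJc : (J.card : ℝ) ≤ K := by
    rw [hJ, Nat.card_Ico]
    have : K0 + K - H - K0 ≤ K := by omega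
    exact_mod_cast this
  have hB : Λ * t0 + 2 + η ≤ M := by rw [hM]; linarith
  have hB0 : 0 ≤ Λ * t0 + 2 + η := by nlinarith [mul_nonneg hΛ ht0]
  have hvar := qvar (OmN w Z Y c0) J (fun k c => (Np (fe F) (Ioc k (k + h)) c : ℝ)) m η ((Λ * t0 + 2 + η) ^ 2) H hη0.le
    hm0 (by positivity) (by
      intro k hk
      rw [hJ, mem_Ico] at hk
      exact (h1 k (by omega) (by omega)).1) (by
      intro k hk l hl hkl
      rw [hJ, mem_Ico] at hk hl
      exact h2 k l (by omega) hkl (by omega)) (by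
      intro k hk
      rw [hJ, mem_Ico] at hk
      exact (h1 k (by omega) (by omega)).2)
  obtain ⟨W, hW⟩ : ∃ W : ℝ, W = ((OmN w Z Y c0).card : ℝ) := ⟨_, rfl⟩
  have hW0 : 0 ≤ W := by rw [hW]; exact Nat.cast_nonneg _
  have hHK : (H : ℝ) * κ ≤ t0 * K := by
    calc (H : ℝ) * κ ≤ t0 * Real.log X ^ n * κ := mul_le_mul_of_nonneg_right hH hκ0.le
      _ = t0 * (κ * Real.log X ^ n) := by ring
      _ ≤ t0 * K := mul_le_mul_of_nonneg_left hK ht0
  have hbound : (J.card : ℝ) ^ 2 * ((1 + 2 * m) * η) + J.card * (2 * H * ((Λ * t0 + 2 + η) ^ 2 + 2 * m * η)) ≤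
      (δ * K) ^ 2 * ε := by
    have hJ0 : (0 : ℝ) ≤ J.card := Nat.cast_nonneg _
    have a1 : (J.card : ℝ) ^ 2 * ((1 + 2 * m) * η) ≤ K ^ 2 * (2 * M * η) := by
      apply mul_le_mul (pow_le_pow_left₀ hJ0 hJc 2) _ (by positivity) (by positivity)
      apply mul_le_mul_of_nonneg_right _ hη0.le
      rw [hM]
      linarith
    have a2 : (J.card : ℝ) * (2 * H * ((Λ * t0 + 2 + η) ^ 2 + 2 * m * η)) ≤ K * (2 * (2 * M ^ 2) * H) := by
      apply mul_le_mul hJc _ (by positivity) hKp.le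
      have h5 : m * η ≤ M := by
        calc m * η ≤ m * 1 := mul_le_mul_of_nonneg_left hη1 hm0
          _ ≤ M := by rw [hM]; linarith
      have h6 : (Λ * t0 + 2 + η) ^ 2 ≤ M ^ 2 := pow_le_pow_left₀ hB0 hB 2
      have h7 : (Λ * t0 + 2 + η) ^ 2 + 2 * m * η ≤ 2 * M ^ 2 := by nlinarith
      have hH0 : (0 : ℝ) ≤ H := Nat.cast_nonneg _
      calc 2 * (H : ℝ) * ((Λ * t0 + 2 + η) ^ 2 + 2 * m * η) ≤ 2 * H * (2 * M ^ 2) :=
            mul_le_mul_of_nonneg_left h7 (by positivity)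
        _ = _ := by ring
    have a3 : 2 * (2 * M ^ 2) * (H : ℝ) ≤ δ ^ 2 * ε / 2 * K := by
      have h6 : 2 * (2 * M ^ 2) * (H : ℝ) * κ ≤ δ ^ 2 * ε / 2 * K * κ := by
        calc 2 * (2 * M ^ 2) * (H : ℝ) * κ = 2 * (2 * M ^ 2) * (H * κ) := by ring
          _ ≤ 2 * (2 * M ^ 2) * (t0 * K) := mul_le_mul_of_nonneg_left hHK (by positivity)
          _ = 2 * (2 * M ^ 2) * t0 * K := by ring
          _ ≤ δ ^ 2 * ε / 2 * κ * K := mul_le_mul_of_nonneg_right hκ1 hKp.le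
          _ = _ := by ring
      exact le_of_mul_le_mul_right h6 hκ0
    have a4 := mul_le_mul_of_nonneg_left hη2 (show (0 : ℝ) ≤ (K : ℝ) ^ 2 by positivity)
    have a5 := mul_le_mul_of_nonneg_left a3 hKp.le
    nlinarith
  have hc := cheb (OmN w Z Y c0) (fun c => ∑ k ∈ J, ((Np (fe F) (Ioc k (k + h)) c : ℝ) - m)) (δ * K)
    ((δ * K) ^ 2 * ε * W) (by positivity) (hvar.trans (by rw [← hW]; exact mul_le_mul_of_nonneg_right hbound hW0))
  have e1 : (δ * (K : ℝ)) ^ 2 * ε * W / (δ * K) ^ 2 = ε * W := by field_simp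
  rw [e1] at hc
  rw [← hW]
  refine le_trans ?_ hc
  have hsub : (OmN w Z Y c0).filter (fun c => δ * K < |∑ k ∈ Ico K0 (K0 + K - H), ((Np (fe F) (Ioc k (k + h)) c : ℝ) -
      ssw F w c * (h / Real.log X ^ n))|) ⊆
      (OmN w Z Y c0).filter (fun c => δ * K < |∑ k ∈ J, ((Np (fe F) (Ioc k (k + h)) c : ℝ) - m)|) := by
    intro c hc
    rw [mem_filter] at hc ⊢
    refine ⟨hc.1, ?_⟩
    have h5 : ssw F w c = ssw F w c0 := by
      apply ssw_rs
      have h6 := hc.1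
      unfold OmN at h6
      rw [mem_filter] at h6
      exact (rs_iff w c0 c).1 h6.2
    rw [h5] at hc
    rw [hm, hJ]
    exact hc.2
  exact_mod_cast card_le_card hsub

end Pool.Agent.Q236.QG
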