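import Pool.Agent.Q236.QG.Mq

set_option autoImplicit false

/-!
# The joint law of the numbers of prime points in windows along a typical polynomial
-/

namespace Pool.Agent.Q236.QG

open Finset Filter Polynomial
open Pool.Agent.Q236.RP Pool.Agent.Q236.UL Pool.Agent.Q236.FL Pool.Agent.Q236.ML

variable {n : ℕ}

lemma po_range (x : ℝ) (hx : 0 ≤ x) (R : ℕ) : 1 - x ^ R / R.factorial ≤ Po x (range R) := by
  have hsum : HasSum (fun j : ℕ => x ^ j / (j.factorial : ℝ)) (Real.exp x) := by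
    rw [Real.exp_eq_exp_ℝ]
    exact NormedSpace.expSeries_div_hasSum_exp x
  have ht := hsum.tendsto_sum_nat
  have ht2 : Tendsto (fun N => Po x (range N)) atTop (nhds 1) := by
    have h1 := ht.const_mul (Real.exp (-x))
    have e1 : Real.exp (-x) * Real.exp x = 1 := by rw [← Real.exp_add]; simp
    rw [e1] at h1
    refine h1.congr ?_
    intro N
    unfold Po
    rw [Finset.mul_sum]
    apply Finset.sum_congr rfl
    intro j _
    ring
  have h2 : 1 ≤ Po x (range R) + x ^ R / R.factorial := by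
    apply le_of_tendsto ht2
    filter_upwards [eventually_ge_atTop R] with N hN
    have e : range N = range R ∪ Ico R N := by
      ext j
      rw [mem_union, mem_range, mem_range, mem_Ico]
      omega
    have h3 : Po x (range N) = Po x (range R) + Po x (Ico R N) := by
      unfold Po
      rw [e, Finset.sum_union]
      rw [Finset.disjoint_left]
      intro j h1 h2
      rw [mem_range] at h1
      rw [mem_Ico] at h2
      omega
    rw [h3]
    apply add_le_add le_rfl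
    unfold Po
    exact Pool.Agent.TH464.PO.poisson_tail x hx R _ (fun j hj => (mem_Ico.1 hj).1)
  linarith

variable {τ : Type*} [Fintype τ] [DecidableEq τ]

omit [Fintype τ] in
lemma one_sub_prod (S : Finset τ) (y : τ → ℝ) (h0 : ∀ t, 0 ≤ y t) (h1 : ∀ t, y t ≤ 1) :
    1 - ∑ t ∈ S, (1 - y t) ≤ ∏ t ∈ S, y t := by
  induction S using Finset.induction_on with
  | empty => simp
  | insert t S ht ih =>
    rw [Finset.sum_insert ht, Finset.prod_insert ht]
    have h2 : ∏ t ∈ S, y t ≤ 1 := Finset.prod_le_one (fun t _ => h0 t) (fun t _ => h1 t)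
    have h3 : 0 ≤ ∏ t ∈ S, y t := Finset.prod_nonneg fun t _ => h0 t
    nlinarith [h0 t, h1 t]

lemma poj_box (x : τ → ℝ) (hx : ∀ t, 0 ≤ x t) (R : ℕ) :
    1 - ∑ t, x t ^ R / R.factorial ≤ PoJ x (Fintype.piFinset fun _ => range R) := by
  rw [PoJ_pi]
  have h1 := one_sub_prod univ (fun t => Po (x t) (range R)) (fun t => Po_nonneg _ (hx t) _) (fun t => Po_le_one _ (hx t) _)
  refine le_trans ?_ h1
  apply sub_le_sub le_rfl
  apply Finset.sum_le_sum
  intro t _
  have := po_range (x t) (hx t) R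
  linarith

open Classical in
/-- from the single patterns to the total variation -/
lemma det_pat (x : τ → ℝ) (hx : ∀ t, 0 ≤ x t) (J : Finset ℕ) (pt : ℕ → τ → ℕ) (δ tail : ℝ) (R : ℕ)
    (htail : ∑ t, x t ^ R / (R.factorial : ℝ) ≤ tail) (hδ : 0 ≤ δ)
    (h : ∀ v ∈ (Fintype.piFinset fun _ : τ => range R), |∑ k ∈ J, ((if pt k = v then (1 : ℝ) else 0) - PoJ x {v})| ≤ δ)
    (A : Finset (τ → ℕ)) : |((J.filter (fun k => pt k ∈ A)).card : ℝ) - J.card * PoJ x A| ≤
      2 * ((Fintype.piFinset fun _ : τ => range R).card * δ) + J.card * tail := by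
  obtain ⟨B, hB⟩ : ∃ B, B = (Fintype.piFinset fun _ : τ => range R) := ⟨_, rfl⟩
  rw [← hB] at h ⊢
  have hJ0 : (0 : ℝ) ≤ J.card := Nat.cast_nonneg _
  have key : ∀ E : Finset (τ → ℕ), E ⊆ B → |((J.filter (fun k => pt k ∈ E)).card : ℝ) - J.card * PoJ x E| ≤ B.card * δ := by
    intro E hE
    have e1 : ((J.filter (fun k => pt k ∈ E)).card : ℝ) = ∑ v ∈ E, ∑ k ∈ J, (if pt k = v then (1 : ℝ) else 0) := by
      rw [Finset.sum_comm, Finset.card_filter]
      push_cast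
      apply Finset.sum_congr rfl
      intro k _
      rw [Finset.sum_ite_eq]
    have e2 : (J.card : ℝ) * PoJ x E = ∑ v ∈ E, ∑ _k ∈ J, PoJ x {v} := by
      have : ∀ v ∈ E, ∑ _k ∈ J, PoJ x {v} = J.card * ∏ t, (Real.exp (-x t) * x t ^ v t / (v t).factorial) := by
        intro v _
        rw [Finset.sum_const, nsmul_eq_mul]
        unfold PoJ
        rw [Finset.sum_singleton]
      rw [Finset.sum_congr rfl this, ← Finset.mul_sum]
      rfl
    rw [e1, e2, ← Finset.sum_sub_distrib]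
    refine (Finset.abs_sum_le_sum_abs _ _).trans ?_
    calc ∑ v ∈ E, |∑ k ∈ J, (if pt k = v then (1 : ℝ) else 0) - ∑ _k ∈ J, PoJ x {v}| ≤ ∑ _v ∈ E, δ := by
          apply Finset.sum_le_sum
          intro v hv
          rw [← Finset.sum_sub_distrib]
          exact h v (hE hv)
      _ = E.card * δ := by rw [Finset.sum_const, nsmul_eq_mul]
      _ ≤ B.card * δ := by
        apply mul_le_mul_of_nonneg_right _ hδ
        exact_mod_cast card_le_card hE
  have hA1 := key (A ∩ B) inter_subset_right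
  have hBB := key B le_rfl
  have hbox := poj_box x hx R
  rw [← hB] at hbox
  have hPA : PoJ x A = PoJ x (A ∩ B) + PoJ x (A \ B) := by
    unfold PoJ
    rw [← Finset.sum_union (disjoint_left.2 (fun v h1 h2 => (Finset.mem_sdiff.1 h2).2 (mem_inter.1 h1).2)),
      union_comm, sdiff_union_inter]
  have hNA : ((J.filter (fun k => pt k ∈ A)).card : ℝ) = ((J.filter (fun k => pt k ∈ A ∩ B)).card : ℝ) +
      ((J.filter (fun k => pt k ∈ A \ B)).card : ℝ) := by
    have e : J.filter (fun k => pt k ∈ A) = (J.filter (fun k => pt k ∈ A ∩ B)) ∪ (J.filter (fun k => pt k ∈ A \ B)) := by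
      ext k
      simp only [mem_union, mem_filter, mem_inter, Finset.mem_sdiff]
      tauto
    rw [e, card_union_of_disjoint (disjoint_left.2 (fun k h1 h2 => by
      rw [mem_filter, mem_inter] at h1
      rw [mem_filter, Finset.mem_sdiff] at h2
      exact h2.2.2 h1.2.2))]
    push_cast
    rfl
  have hN2 : ((J.filter (fun k => pt k ∈ A \ B)).card : ℝ) ≤ J.card - ((J.filter (fun k => pt k ∈ B)).card : ℝ) := by
    have h1 : (J.filter (fun k => pt k ∈ A \ B)).card + (J.filter (fun k => pt k ∈ B)).card ≤ J.card := by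
      rw [← card_union_of_disjoint (disjoint_left.2 (fun k h1 h2 => by
        rw [mem_filter, Finset.mem_sdiff] at h1
        rw [mem_filter] at h2
        exact h1.2.2 h2.2))]
      apply card_le_card
      exact union_subset (filter_subset _ _) (filter_subset _ _)
    have h2 : ((J.filter (fun k => pt k ∈ A \ B)).card : ℝ) + ((J.filter (fun k => pt k ∈ B)).card : ℝ) ≤ J.card := by
      exact_mod_cast h1
    linarith
  have hP2 : PoJ x (A \ B) ≤ tail := by
    refine (PoJ_tail x hx (A \ B) R ?_).trans htail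
    intro v hv
    rw [Finset.mem_sdiff, hB, Fintype.mem_piFinset] at hv
    have := hv.2
    push Not at this
    obtain ⟨t, ht⟩ := this
    rw [mem_range] at ht
    exact ⟨t, by omega⟩
  have hP0 : 0 ≤ PoJ x (A \ B) := PoJ_nonneg x hx _
  have hN0 : (0 : ℝ) ≤ ((J.filter (fun k => pt k ∈ A \ B)).card : ℝ) := Nat.cast_nonneg _
  have hbb := (abs_le.1 hBB).1
  have h5 : (J.card : ℝ) * (1 - tail) ≤ J.card * PoJ x B := mul_le_mul_of_nonneg_left (by linarith) hJ0
  have h6 : (J.card : ℝ) * PoJ x (A \ B) ≤ J.card * tail := mul_le_mul_of_nonneg_left hP2 hJ0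
  have h7 : 0 ≤ (J.card : ℝ) * PoJ x (A \ B) := mul_nonneg hJ0 hP0
  rw [hPA, hNA, mul_add]
  obtain ⟨c1, c2⟩ := abs_le.1 hA1
  have hB0 : 0 ≤ (B.card : ℝ) * δ := by positivity
  rw [abs_le]
  constructor <;> linarith

open Classical in
/-- **The joint law of the numbers of prime points in windows along a typical polynomial** -/
theorem pat_all (hn : 1 ≤ n) (α β : τ → ℝ) (hα : ∀ t, 0 ≤ α t) (hαβ : ∀ t, α t ≤ β t)
    (hdis : ∀ t u, t ≠ u → β t ≤ α u ∨ β u ≤ α t) (ε : ℝ) (hε : 0 < ε) : ∃ (d0 w0 : ℕ) (κ : ℝ), 2 ≤ w0 ∧ 0 < κ ∧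
    ∀ w : ℕ, w0 ≤ w → ∀ C d : ℕ, d0 ≤ d → ∀ᶠ X : ℕ in atTop,
    ∀ (F : Fin n → ℤ[X]) (Z : Fin n → Fin d → ℤ) (Y : Fin n → Fin d → ℕ) (K0 K : ℕ), κ * Real.log X ^ n ≤ K →
    (∀ i, SZ C X (fe F i) (Z i) (Y i) (Ioc K0 (K0 + K))) →
    (((BoxN Z Y).filter (fun c => ¬∀ A : Finset (τ → ℕ),
      |(((Ico K0 (K0 + K)).filter (fun k => (fun t => Np (fe F) (Ioc (k + ⌊α t * Real.log X ^ n⌋₊)
        (k + ⌊β t * Real.log X ^ n⌋₊)) c) ∈ A)).card : ℝ) - K * PoJ (fun t => ssw F w c * (β t - α t)) A| ≤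
        ε * K)).card : ℝ) ≤ ε * (BoxN Z Y).card := by
  obtain ⟨Λ, hΛ0, hΛ⟩ := many_ssw hn (ε / 2) (by positivity)
  obtain ⟨M, hM⟩ : ∃ M : ℝ, M = ∑ t, β t := ⟨_, rfl⟩
  have hβ0 : ∀ t, 0 ≤ β t := fun t => (hα t).trans (hαβ t)
  have hβM : ∀ t, β t ≤ M := fun t => by
    rw [hM]
    exact Finset.single_le_sum (f := β) (fun t _ => hβ0 t) (mem_univ t)
  have hM0 : 0 ≤ M := by rw [hM]; exact Finset.sum_nonneg fun t _ => hβ0 t
  obtain ⟨s, hs⟩ : ∃ s : ℝ, s = Fintype.card τ := ⟨_, rfl⟩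
  have hs0 : 0 ≤ s := by rw [hs]; exact Nat.cast_nonneg _
  obtain ⟨R, hR⟩ := Pool.Agent.TH464.PO.exists_small (Λ * (M + 1)) s (ε / 8) (by positivity)
  have hR := hR R le_rfl
  obtain ⟨B, hB⟩ : ∃ B, B = (Fintype.piFinset fun _ : τ => range R) := ⟨_, rfl⟩
  obtain ⟨b, hb⟩ : ∃ b : ℝ, b = B.card := ⟨_, rfl⟩
  have hb0 : 0 ≤ b := by rw [hb]; exact Nat.cast_nonneg _
  obtain ⟨δ, hδ⟩ : ∃ δ : ℝ, δ = ε / (16 * (b + 1)) := ⟨_, rfl⟩
  have hδ0 : 0 < δ := by rw [hδ]; positivity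
  have hδb : 2 * (b * δ) ≤ ε / 8 := by
    rw [hδ, mul_div_assoc', mul_div_assoc', div_le_div_iff₀ (by positivity) (by norm_num)]
    nlinarith
  obtain ⟨d0, w0, κ1, hw0, hκ1, h⟩ := pat_quench (τ := τ) hn (M + 1) Λ (ε / (2 * (b + 1))) δ (by positivity) hΛ0.le
    (by positivity) hδ0
  obtain ⟨κ, hκ⟩ : ∃ κ : ℝ, κ = max κ1 (8 * (M + 1) / ε) := ⟨_, rfl⟩
  have hκ1' : κ1 ≤ κ := by rw [hκ]; exact le_max_left _ _
  have hκ2' : 8 * (M + 1) / ε ≤ κ := by rw [hκ]; exact le_max_right _ _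
  refine ⟨max d0 1, w0, κ, hw0, by linarith, ?_⟩
  intro w hw C d hd
  filter_upwards [h w hw C d (by omega), hΛ w C d (by omega), ev_log_ge 1,
    ev_log_ge (8 * (s * (Λ * 2)) * 2 / ε + 1)] with X hX hX2 hL hL2 F Z Y K0 K hK hsz
  obtain ⟨L, hLd⟩ : ∃ L, L = Real.log (X : ℝ) ^ n := ⟨_, rfl⟩
  rw [← hLd] at hX hK ⊢
  have hLn : 1 ≤ L := by rw [hLd]; exact one_le_pow₀ hL
  have hL0 : 0 < L := by linarith
  have hlL : Real.log X ≤ L := by
    rw [hLd]
    calc Real.log X = Real.log X ^ 1 := (pow_one _).symm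
      _ ≤ Real.log X ^ n := pow_le_pow_right₀ hL hn
  have hL2' : 8 * (s * (Λ * 2)) * 2 / ε ≤ L := by linarith
  have hKp : (0 : ℝ) < K := by
    have : 0 < κ := by linarith
    exact lt_of_lt_of_le (by positivity) hK
  obtain ⟨H, hH⟩ : ∃ H : ℕ, H = ⌊M * L⌋₊ := ⟨_, rfl⟩
  have hHM : (H : ℝ) ≤ M * L := by rw [hH]; exact Nat.floor_le (by positivity)
  have hHM1 : (H : ℝ) ≤ (M + 1) * L := by nlinarith
  obtain ⟨a, ha⟩ : ∃ a : τ → ℕ, a = fun t => ⌊α t * L⌋₊ := ⟨_, rfl⟩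
  obtain ⟨bb, hbb⟩ : ∃ bb : τ → ℕ, bb = fun t => ⌊β t * L⌋₊ - ⌊α t * L⌋₊ := ⟨_, rfl⟩
  have hfl : ∀ t, ⌊α t * L⌋₊ ≤ ⌊β t * L⌋₊ := fun t =>
    Nat.floor_mono (mul_le_mul_of_nonneg_right (hαβ t) hL0.le)
  have hab : ∀ t, a t + bb t = ⌊β t * L⌋₊ := by
    intro t
    rw [ha, hbb]
    simp only
    have := hfl t
    omega
  have habH : ∀ t, a t + bb t ≤ H := by
    intro t
    rw [hab, hH]
    exact Nat.floor_mono (mul_le_mul_of_nonneg_right (hβM t) hL0.le)
  have hdis2 : ∀ t u, t ≠ u → Disjoint (Ioc (a t) (a t + bb t)) (Ioc (a u) (a u + bb u)) := by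
    intro t u htu
    rw [hab, hab, Finset.disjoint_left]
    intro y h1 h2
    rw [mem_Ioc] at h1 h2
    rcases hdis t u htu with h3 | h3
    · have h4 : ⌊β t * L⌋₊ ≤ ⌊α u * L⌋₊ := Nat.floor_mono (mul_le_mul_of_nonneg_right h3 hL0.le)
      have h5 : a u = ⌊α u * L⌋₊ := by rw [ha]
      omega
    · have h4 : ⌊β u * L⌋₊ ≤ ⌊α t * L⌋₊ := Nat.floor_mono (mul_le_mul_of_nonneg_right h3 hL0.le)
      have h5 : a t = ⌊α t * L⌋₊ := by rw [ha]
      omega
  have hκK : κ1 * L ≤ K := (mul_le_mul_of_nonneg_right hκ1' hL0.le).trans hK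
  have hHK : (H : ℝ) ≤ ε / 8 * K := by
    have h1 : 8 * (M + 1) / ε * L ≤ K := (mul_le_mul_of_nonneg_right hκ2' hL0.le).trans hK
    have h2 : 8 * (M + 1) / ε * L = 8 / ε * ((M + 1) * L) := by ring
    rw [h2] at h1
    have h3 := mul_le_mul_of_nonneg_left h1 (show 0 ≤ ε / 8 by positivity)
    have h4 : ε / 8 * (8 / ε * ((M + 1) * L)) = (M + 1) * L := by field_simp
    rw [h4] at h3
    linarith
  have hbad := fun v => hX F Z Y K0 K H a bb habH hdis2 (by linarith) hκK hsz v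
  have hbadΛ := hX2 F Z Y (fun i j => (hsz i).side j)
  -- the bad set
  obtain ⟨Q, hQ⟩ : ∃ Q : (τ → ℕ) → Finset (Fin n → Fin d → ℤ), Q = fun v => (BoxN Z Y).filter (fun c =>
    ssw F w c ≤ Λ ∧ δ * K < |∑ k ∈ Ico K0 (K0 + K - H), (Ft (fe F) a bb v k c -
      PoJ (fun t => ssw F w c * (bb t / L)) {v})|) := ⟨_, rfl⟩
  have hbad' : ∀ v, ((Q v).card : ℝ) ≤ ε / (2 * (b + 1)) * (BoxN Z Y).card := fun v => by rw [hQ]; exact hbad v
  obtain ⟨S, hS⟩ : ∃ S, S = (BoxN Z Y).filter (fun c => ¬∀ A : Finset (τ → ℕ),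
      |(((Ico K0 (K0 + K)).filter (fun k => (fun t => Np (fe F) (Ioc (k + ⌊α t * L⌋₊)
        (k + ⌊β t * L⌋₊)) c) ∈ A)).card : ℝ) - K * PoJ (fun t => ssw F w c * (β t - α t)) A| ≤
        ε * K) := ⟨_, rfl⟩
  rw [← hS]
  have hsub : S ⊆ (BoxN Z Y).filter (fun c => ¬ssw F w c ≤ Λ) ∪ B.biUnion Q := by
    intro c hc
    rw [mem_union, mem_biUnion]
    by_contra hcon
    push Not at hcon
    obtain ⟨hc1, hc2⟩ := hcon
    rw [hS, mem_filter] at hc
    obtain ⟨hcB, hcA⟩ := hc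
    apply hcA
    intro A
    have hcΛ : ssw F w c ≤ Λ := by
      by_contra h1
      exact hc1 (mem_filter.2 ⟨hcB, not_le.1 h1⟩)
    obtain ⟨σ, hσ⟩ : ∃ σ, σ = ssw F w c := ⟨_, rfl⟩
    have hσ0 : 0 ≤ σ := by rw [hσ]; exact ssw_nonneg F w c
    rw [← hσ] at hcΛ ⊢
    have hv : ∀ v ∈ B, |∑ k ∈ Ico K0 (K0 + K - H), ((if (fun t => Np (fe F) (Ioc (k + a t) (k + a t + bb t)) c) = v
        then (1 : ℝ) else 0) - PoJ (fun t => σ * (bb t / L)) {v})| ≤ δ * K := by
      intro v hv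
      have h1 := hc2 v hv
      rw [hQ] at h1
      by_contra h2
      apply h1
      rw [mem_filter]
      refine ⟨hcB, by rw [← hσ]; exact hcΛ, ?_⟩
      rw [← hσ]
      have h3 := not_le.1 h2
      refine lt_of_lt_of_eq h3 ?_
      congr 1
      apply Finset.sum_congr rfl
      intro k _
      unfold Ft
      by_cases g : (fun t => Np (fe F) (Ioc (k + a t) (k + a t + bb t)) c) = v
      · rw [if_pos g, if_pos g]
      · rw [if_neg g, if_neg g]
    have hx0 : ∀ t, 0 ≤ σ * ((bb t : ℝ) / L) := fun t => by positivity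
    have hbL : ∀ t, |(bb t : ℝ) / L - (β t - α t)| ≤ 2 / L := by
      intro t
      have h1 : (bb t : ℝ) = (⌊β t * L⌋₊ : ℝ) - ⌊α t * L⌋₊ := by
        rw [hbb]
        simp only
        rw [Nat.cast_sub (hfl t)]
      have h2 := Nat.floor_le (mul_nonneg (hβ0 t) hL0.le)
      have h3 := Nat.lt_floor_add_one (β t * L)
      have h4 := Nat.floor_le (mul_nonneg (hα t) hL0.le)
      have h5 := Nat.lt_floor_add_one (α t * L)
      have e : (bb t : ℝ) / L - (β t - α t) = ((bb t : ℝ) - (β t * L - α t * L)) / L := by field_simp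
      rw [e, abs_div, abs_of_pos hL0]
      apply div_le_div_of_nonneg_right _ hL0.le
      rw [h1, abs_le]
      constructor <;> linarith
    have hxle : ∀ t, σ * ((bb t : ℝ) / L) ≤ Λ * (M + 1) := by
      intro t
      apply mul_le_mul hcΛ _ (by positivity) hΛ0.le
      rw [div_le_iff₀ hL0]
      have h1 : (bb t : ℝ) ≤ H := by exact_mod_cast (by have := habH t; omega : bb t ≤ H)
      linarith
    have htail : ∑ t, (σ * ((bb t : ℝ) / L)) ^ R / (R.factorial : ℝ) ≤ ε / 8 := by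
      refine le_trans ?_ hR
      calc ∑ t, (σ * ((bb t : ℝ) / L)) ^ R / (R.factorial : ℝ) ≤ ∑ _t : τ, (Λ * (M + 1)) ^ R / (R.factorial : ℝ) := by
            apply Finset.sum_le_sum
            intro t _
            apply div_le_div_of_nonneg_right _ (by positivity)
            exact pow_le_pow_left₀ (hx0 t) (hxle t) R
        _ = _ := by rw [Finset.sum_const, Finset.card_univ, nsmul_eq_mul, ← hs]
    have hdet := det_pat (fun t => σ * ((bb t : ℝ) / L)) hx0 (Ico K0 (K0 + K - H))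
      (fun k t => Np (fe F) (Ioc (k + a t) (k + a t + bb t)) c) (δ * K) (ε / 8) R htail (by positivity)
      (by rw [← hB]; exact hv) A
    rw [← hB, ← hb] at hdet
    have hJc : ((Ico K0 (K0 + K - H)).card : ℝ) ≤ K := by
      rw [Nat.card_Ico]
      exact_mod_cast (by omega : K0 + K - H - K0 ≤ K)
    have hJc2 : (K : ℝ) - H ≤ ((Ico K0 (K0 + K - H)).card : ℝ) := by
      rw [Nat.card_Ico]
      have : K ≤ (K0 + K - H - K0) + H := by omega
      have h2 : (K : ℝ) ≤ ((K0 + K - H - K0 : ℕ) : ℝ) + H := by exact_mod_cast this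
      linarith
    have hwin : ∀ k t, Ioc (k + ⌊α t * L⌋₊) (k + ⌊β t * L⌋₊) = Ioc (k + a t) (k + a t + bb t) := by
      intro k t
      rw [add_assoc, hab, ha]
    simp only [hwin]
    obtain ⟨pt, hpt⟩ : ∃ pt : ℕ → τ → ℕ, pt = fun k t => Np (fe F) (Ioc (k + a t) (k + a t + bb t)) c := ⟨_, rfl⟩
    have hptk : ∀ k, (fun t => Np (fe F) (Ioc (k + a t) (k + a t + bb t)) c) = pt k := fun k => by rw [hpt]
    simp only [hptk] at hdet ⊢
    have hcount1 : (((Ico K0 (K0 + K - H)).filter (fun k => pt k ∈ A)).card : ℝ) ≤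
        ((Ico K0 (K0 + K)).filter (fun k => pt k ∈ A)).card := by
      have : (Ico K0 (K0 + K - H)).filter (fun k => pt k ∈ A) ⊆ (Ico K0 (K0 + K)).filter (fun k => pt k ∈ A) := by
        apply filter_subset_filter
        intro y hy
        rw [mem_Ico] at hy ⊢
        omega
      exact_mod_cast card_le_card this
    have hcount2 : (((Ico K0 (K0 + K)).filter (fun k => pt k ∈ A)).card : ℝ) ≤
        ((Ico K0 (K0 + K - H)).filter (fun k => pt k ∈ A)).card + H := by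
      have h1 : (Ico K0 (K0 + K)).filter (fun k => pt k ∈ A) ⊆
          (Ico K0 (K0 + K - H)).filter (fun k => pt k ∈ A) ∪ Ico (K0 + K - H) (K0 + K) := by
        intro y hy
        rw [mem_filter, mem_Ico] at hy
        rw [mem_union, mem_filter, mem_Ico, mem_Ico]
        by_cases h : y < K0 + K - H
        · exact Or.inl ⟨⟨hy.1.1, h⟩, hy.2⟩
        · exact Or.inr ⟨by omega, hy.1.2⟩
      have h2 := (card_le_card h1).trans (card_union_le _ _)
      rw [Nat.card_Ico (K0 + K - H)] at h2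
      have h3 : ((Ico K0 (K0 + K)).filter (fun k => pt k ∈ A)).card ≤
          ((Ico K0 (K0 + K - H)).filter (fun k => pt k ∈ A)).card + H := by omega
      exact_mod_cast h3
    have hdiff := PoJ_diff (fun t => σ * ((bb t : ℝ) / L)) (fun t => σ * (β t - α t)) hx0
      (fun t => mul_nonneg hσ0 (by linarith [hαβ t])) A
    have hd2 : 2 * ∑ t, |σ * ((bb t : ℝ) / L) - σ * (β t - α t)| ≤ ε / 8 := by
      have h1 : ∑ t, |σ * ((bb t : ℝ) / L) - σ * (β t - α t)| ≤ s * (Λ * (2 / L)) := by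
        calc ∑ t, |σ * ((bb t : ℝ) / L) - σ * (β t - α t)| ≤ ∑ _t : τ, Λ * (2 / L) := by
              apply Finset.sum_le_sum
              intro t _
              rw [← mul_sub, abs_mul, abs_of_nonneg hσ0]
              exact mul_le_mul hcΛ (hbL t) (abs_nonneg _) hΛ0.le
          _ = _ := by rw [Finset.sum_const, Finset.card_univ, nsmul_eq_mul, ← hs]
      have h2 : 2 * (s * (Λ * (2 / L))) ≤ ε / 8 := by
        have e : 2 * (s * (Λ * (2 / L))) = (2 * (s * (Λ * 2))) / L := by ring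
        rw [e, div_le_iff₀ hL0]
        rw [div_le_iff₀ hε] at hL2'
        linarith
      linarith
    obtain ⟨P1, hP1⟩ : ∃ P1, P1 = PoJ (fun t => σ * ((bb t : ℝ) / L)) A := ⟨_, rfl⟩
    obtain ⟨P2, hP2⟩ : ∃ P2, P2 = PoJ (fun t => σ * (β t - α t)) A := ⟨_, rfl⟩
    have hP10 : 0 ≤ P1 := by rw [hP1]; exact PoJ_nonneg _ hx0 _
    have hP11 : P1 ≤ 1 := by rw [hP1]; exact PoJ_le_one _ hx0 _
    rw [← hP1] at hdet hdiff
    rw [← hP2] at hdiff ⊢
    obtain ⟨J, hJ⟩ : ∃ J : ℝ, J = ((Ico K0 (K0 + K - H)).card : ℝ) := ⟨_, rfl⟩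
    rw [← hJ] at hdet hJc hJc2
    obtain ⟨c1, c2⟩ := abs_le.1 hdet
    obtain ⟨c3, c4⟩ := abs_le.1 (hdiff.trans hd2)
    have f1 : 2 * (b * (δ * K)) ≤ ε / 8 * K := by
      have := mul_le_mul_of_nonneg_right hδb hKp.le
      linarith
    have f2 : J * (ε / 8) ≤ ε / 8 * K := by nlinarith
    have f3 : J * P1 ≤ K * P1 := mul_le_mul_of_nonneg_right hJc hP10
    have f4 : (K - H) * P1 ≤ J * P1 := mul_le_mul_of_nonneg_right hJc2 hP10
    have f5 : (H : ℝ) * P1 ≤ H := by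
      have : (0 : ℝ) ≤ H := Nat.cast_nonneg _
      nlinarith
    have f6 : (K : ℝ) * (P1 - P2) ≤ K * (ε / 8) := mul_le_mul_of_nonneg_left c4 hKp.le
    have f7 : (K : ℝ) * (-(ε / 8)) ≤ K * (P1 - P2) := mul_le_mul_of_nonneg_left c3 hKp.le
    rw [abs_le]
    constructor
    · nlinarith
    · nlinarith
  have h1 := (card_le_card hsub).trans (card_union_le _ _)
  have h2 : ((B.biUnion Q).card : ℝ) ≤ b * (ε / (2 * (b + 1)) * (BoxN Z Y).card) := by
    have h3 : ((B.biUnion Q).card : ℝ) ≤ ∑ v ∈ B, ((Q v).card : ℝ) := by exact_mod_cast card_biUnion_le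
    refine h3.trans ((Finset.sum_le_sum fun v _ => hbad' v).trans ?_)
    rw [Finset.sum_const, nsmul_eq_mul, ← hb]
  have h3 : b * (ε / (2 * (b + 1)) * ((BoxN Z Y).card : ℝ)) ≤ ε / 2 * (BoxN Z Y).card := by
    have h4 : b * (ε / (2 * (b + 1))) ≤ ε / 2 := by
      rw [mul_div_assoc', div_le_div_iff₀ (by positivity) (by norm_num)]
      nlinarith
    have := mul_le_mul_of_nonneg_right h4 (Nat.cast_nonneg (BoxN Z Y).card : (0 : ℝ) ≤ _)
    linarith
  have h4 : (S.card : ℝ) ≤ ((BoxN Z Y).filter (fun c => ¬ssw F w c ≤ Λ)).card + ((B.biUnion Q).card : ℝ) := by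
    exact_mod_cast h1
  linarith

end Pool.Agent.Q236.QG
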