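import Pool.Agent.Q236.QG.Cls

set_option autoImplicit false

/-!
# Patterns along a typical polynomial
-/

namespace Pool.Agent.Q236.QG

open Finset Filter Polynomial
open Pool.Agent.Q236.RP Pool.Agent.Q236.UL Pool.Agent.Q236.FL

variable {n : ℕ}

open Classical in
/-- from the classes to the whole box -/
lemma glob_bad {d : ℕ} (w : ℕ) (Z : Fin n → Fin d → ℤ) (Y : Fin n → Fin d → ℕ)
    (Q G : (Fin n → Fin d → ℤ) → Prop) (hG : ∀ a c, rs w c = rs w a → G c → G a) (δ : ℝ) (hδ : 0 ≤ δ)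
    (h : ∀ a, G a → (((OmN w Z Y a).filter Q).card : ℝ) ≤ δ * (OmN w Z Y a).card) :
    (((BoxN Z Y).filter (fun c => G c ∧ Q c)).card : ℝ) ≤ δ * (BoxN Z Y).card := by
  have e3 : ((BoxN Z Y).card : ℝ) =
      ∑ b ∈ (BoxN Z Y).image (rs w), (((BoxN Z Y).filter (fun c => rs w c = b)).card : ℝ) := by
    have := Finset.card_eq_sum_card_fiberwise (f := rs w) (s := BoxN Z Y) (t := (BoxN Z Y).image (rs w))
      (fun c hc => mem_image_of_mem _ hc)
    exact_mod_cast this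
  have e4 : (((BoxN Z Y).filter (fun c => G c ∧ Q c)).card : ℝ) =
      ∑ b ∈ (BoxN Z Y).image (rs w), ((((BoxN Z Y).filter (fun c => G c ∧ Q c)).filter (fun c => rs w c = b)).card : ℝ) := by
    have := Finset.card_eq_sum_card_fiberwise (f := rs w)
      (s := (BoxN Z Y).filter (fun c => G c ∧ Q c)) (t := (BoxN Z Y).image (rs w))
      (fun c hc => mem_image_of_mem _ (mem_filter.1 hc).1)
    exact_mod_cast this
  rw [e3, e4, Finset.mul_sum]
  apply Finset.sum_le_sum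
  intro b hb
  rw [mem_image] at hb
  obtain ⟨a, _, rfl⟩ := hb
  have hfib : (BoxN Z Y).filter (fun c => rs w c = rs w a) = OmN w Z Y a := by
    unfold OmN
    apply filter_congr
    intro c _
    exact (rs_iff w a c).symm
  rw [hfib]
  by_cases hg : G a
  · refine le_trans ?_ (h a hg)
    have : ((BoxN Z Y).filter (fun c => G c ∧ Q c)).filter (fun c => rs w c = rs w a) ⊆ (OmN w Z Y a).filter Q := by
      intro c hc
      rw [mem_filter, mem_filter] at hc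
      rw [← hfib, mem_filter, mem_filter]
      exact ⟨⟨hc.1.1, hc.2⟩, hc.1.2.2⟩
    exact_mod_cast card_le_card this
  · have : ((BoxN Z Y).filter (fun c => G c ∧ Q c)).filter (fun c => rs w c = rs w a) = ∅ := by
      rw [filter_eq_empty_iff]
      intro c hc h1
      rw [mem_filter] at hc
      exact hg (hG a c h1 hc.2.1)
    rw [this, card_empty, Nat.cast_zero]
    positivity

lemma ssw_rs {d : ℕ} (F : Fin n → ℤ[X]) (w : ℕ) (a c : Fin n → Fin d → ℤ) (h : rs w c = rs w a) :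
    ssw F w c = ssw F w a := by
  have h1 := (rs_iff w a c).2 h
  unfold ssw
  congr 1
  apply Finset.prod_congr rfl
  intro p hp
  rw [mem_filter, mem_range] at hp
  have hpM : (p : ℤ) ∣ ((primorial w : ℕ) : ℤ) := by
    apply Int.natCast_dvd_natCast.2
    unfold primorial
    apply Finset.dvd_prod_of_mem
    rw [mem_filter, mem_range]
    exact ⟨by omega, hp.2⟩
  have e : om (GG F c) p = om (GG F a) p := by
    unfold om
    congr 1
    apply filter_congr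
    intro k _
    have h2 : (p : ℤ) ∣ (GG F c).eval (k : ℤ) - (GG F a).eval (k : ℤ) := by
      rw [GG_eval, GG_eval]
      have h3 : ∏ i, ev (fun k => (F i).eval (k : ℤ)) (c i) k ≡ ∏ i, ev (fun k => (F i).eval (k : ℤ)) (a i) k [ZMOD p] := by
        apply Int.ModEq.prod
        intro i _
        exact (Int.modEq_iff_dvd.2 (hpM.trans (ev_cl (fun k => (F i).eval (k : ℤ)) ((primorial w : ℕ) : ℤ) (c i) (a i) (h1 i) k))).symm
      exact (Int.modEq_iff_dvd.1 h3.symm)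
    exact (Int.dvd_iff_dvd_of_dvd_sub h2)
  rw [e]

open Classical in
/-- few polynomials have a large singular series -/
theorem many_ssw (hn : 1 ≤ n) (ε : ℝ) (hε : 0 < ε) : ∃ Λ : ℝ, 0 < Λ ∧ ∀ w C d : ℕ, 1 ≤ d → ∀ᶠ X : ℕ in atTop,
    ∀ (F : Fin n → ℤ[X]) (Z : Fin n → Fin d → ℤ) (Y : Fin n → Fin d → ℕ),
    (∀ i j, (X : ℝ) / Real.log X ^ C ≤ Y i j) →
    (((BoxN Z Y).filter (fun c => ¬ssw F w c ≤ Λ)).card : ℝ) ≤ ε * (BoxN Z Y).card := by
  obtain ⟨Λ', hΛ'⟩ : ∃ Λ' : ℝ, Λ' = 2 ^ n / ε := ⟨_, rfl⟩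
  have hΛ0 : 0 < Λ' := by rw [hΛ']; positivity
  refine ⟨2 * (Λ' + 1), by positivity, ?_⟩
  intro w C d hd
  filter_upwards [ev_log_ge 2, ev_pow_log (C + 1), ev_log_ge (((primorial w : ℕ) : ℝ) ^ 2), small_w hn w 1 one_pos]
    with X hL hX2 hX3 hsm F Z Y hY
  obtain ⟨L, hLd⟩ : ∃ L, L = Real.log (X : ℝ) := ⟨_, rfl⟩
  have hL0 : 0 < L := by rw [hLd]; linarith
  have hYbig : ∀ j i, (((primorial w : ℕ) : ℝ) ^ 2) ≤ Y j i := by
    intro j i
    refine le_trans hX3 (le_trans ?_ (hY j i))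
    rw [← hLd] at hX2 ⊢
    rw [le_div_iff₀ (by positivity)]
    calc L * L ^ C = L ^ (C + 1) := by ring
      _ ≤ X := hX2
  have hY2 : ∀ j i, primorial w ^ 2 ≤ Y j i := fun j i => by exact_mod_cast hYbig j i
  have hY1 : ∀ j i, 1 ≤ Y j i := fun j i => le_trans (Nat.one_le_pow _ _ (primorial_pos w)) (hY2 j i)
  obtain ⟨K, hK⟩ : ∃ K, K = ⌊L ^ n⌋₊ := ⟨_, rfl⟩
  have hLn : 2 ≤ L ^ n := by
    rw [← hLd] at hL
    calc (2 : ℝ) ≤ L := hL
      _ = L ^ 1 := (pow_one _).symm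
      _ ≤ L ^ n := pow_le_pow_right₀ (by linarith) hn
  have hK1 : (K : ℝ) ≤ L ^ n := by rw [hK]; exact Nat.floor_le (by positivity)
  have hK2 : L ^ n < K + 1 := by rw [hK]; exact Nat.lt_floor_add_one _
  have hmar := markov_x (τ := Unit) (fe F) w X Z Y (fun _ => Ioc 0 (0 + K)) (⟨0, by omega⟩ : Fin d) rfl hY1
    (fun j => hY2 j _) 1 Λ' zero_le_one hΛ0 (by rw [← hLd]; exact hL0) (fun _ => by
      rw [Nat.card_Ioc, ← hLd, one_mul]
      simpa using hK1)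
  have e1 : ((Fintype.card Unit : ℕ) : ℝ) * (2 ^ n * 1 / Λ') = ε := by
    rw [Fintype.card_unit, hΛ']
    field_simp
    simp
  rw [e1] at hmar
  refine le_trans ?_ hmar
  have hsub : (BoxN Z Y).filter (fun c => ¬ssw F w c ≤ 2 * (Λ' + 1)) ⊆
      (BoxN Z Y).filter (fun c => ¬∀ t : Unit, xp (fe F) w X (Ioc 0 (0 + K)) c ≤ Λ') := by
    intro c hc
    rw [mem_filter] at hc ⊢
    refine ⟨hc.1, ?_⟩
    push Not
    refine ⟨(), ?_⟩
    have h1 := xp_interval F w X 0 K c (by rw [← hLd]; exact hL0)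
    have h2 := (abs_le.1 (h1.trans hsm)).1
    have h3 := not_le.1 hc.2
    rw [← hLd] at h2
    have h4 : 1 / 2 ≤ (K : ℝ) / L ^ n := by
      rw [div_le_div_iff₀ (by norm_num) (by positivity)]
      linarith
    have h5 : ssw F w c * (1 / 2) ≤ ssw F w c * (K / L ^ n) := mul_le_mul_of_nonneg_left h4 (ssw_nonneg F w c)
    have h6 : xp (fe F) w X (Ioc 0 (0 + K)) c = xp (fun i k => (F i).eval (k : ℤ)) w X (Ioc 0 (0 + K)) c := rfl
    rw [h6]
    linarith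
  exact_mod_cast card_le_card hsub

open Classical in
/-- **Patterns along a typical polynomial** -/
theorem pat_quench {τ : Type*} [Fintype τ] [DecidableEq τ] (hn : 1 ≤ n) (t0 Λ ε δ : ℝ) (ht0 : 0 ≤ t0) (hΛ : 0 ≤ Λ)
    (hε : 0 < ε) (hδ : 0 < δ) : ∃ (d0 w0 : ℕ) (κ : ℝ), 2 ≤ w0 ∧ 0 < κ ∧
    ∀ w : ℕ, w0 ≤ w → ∀ C d : ℕ, d0 ≤ d → ∀ᶠ X : ℕ in atTop,
    ∀ (F : Fin n → ℤ[X]) (Z : Fin n → Fin d → ℤ) (Y : Fin n → Fin d → ℕ) (K0 K H : ℕ) (a b : τ → ℕ),
    (∀ t, a t + b t ≤ H) → (∀ t u, t ≠ u → Disjoint (Ioc (a t) (a t + b t)) (Ioc (a u) (a u + b u))) →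
    (H : ℝ) ≤ t0 * Real.log X ^ n → κ * Real.log X ^ n ≤ K →
    (∀ i, SZ C X (fe F i) (Z i) (Y i) (Ioc K0 (K0 + K))) → ∀ v : τ → ℕ,
    (((BoxN Z Y).filter (fun c => ssw F w c ≤ Λ ∧ δ * K < |∑ k ∈ Ico K0 (K0 + K - H), (Ft (fe F) a b v k c -
      PoJ (fun t => ssw F w c * (b t / Real.log X ^ n)) {v})|)).card : ℝ) ≤ ε * (BoxN Z Y).card := by
  obtain ⟨η, hη⟩ : ∃ η : ℝ, η = min 1 (δ ^ 2 * ε / 6) := ⟨_, rfl⟩
  have hη0 : 0 < η := by rw [hη]; positivity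
  have hη1 : η ≤ 1 := by rw [hη]; exact min_le_left _ _
  have hη2 : 3 * η ≤ δ ^ 2 * ε / 2 := by
    have : η ≤ δ ^ 2 * ε / 6 := by rw [hη]; exact min_le_right _ _
    linarith
  obtain ⟨d0, w0, hw0, h⟩ := pat_class (τ := τ) hn t0 Λ η ht0 hΛ hη0
  obtain ⟨κ, hκ⟩ : ∃ κ : ℝ, κ = 12 * t0 / (δ ^ 2 * ε) + 1 := ⟨_, rfl⟩
  have hκ0 : 0 < κ := by rw [hκ]; positivity
  have hκ1 : 6 * t0 ≤ δ ^ 2 * ε / 2 * κ := by
    rw [hκ, mul_add, mul_one]
    have e : δ ^ 2 * ε / 2 * (12 * t0 / (δ ^ 2 * ε)) = 6 * t0 := by field_simp; ring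
    rw [e]
    have : 0 < δ ^ 2 * ε / 2 := by positivity
    linarith
  refine ⟨d0, w0, κ, hw0, hκ0, ?_⟩
  intro w hw C d hd
  filter_upwards [h w hw C d hd, ev_log_ge 1] with X hX hL F Z Y K0 K H a b hab hdis hH hK hsz v
  have hL0 : 0 < Real.log (X : ℝ) := by linarith
  have hLn : 0 < Real.log (X : ℝ) ^ n := by positivity
  have hKp : (0 : ℝ) < K := lt_of_lt_of_le (by positivity) hK
  apply glob_bad w Z Y _ (fun c => ssw F w c ≤ Λ) (fun a c h1 h2 => by rw [← ssw_rs F w a c h1]; exact h2) ε hε.le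
  intro c0 hc0
  obtain ⟨m, hm⟩ : ∃ m, m = PoJ (fun t => ssw F w c0 * (b t / Real.log X ^ n)) {v} := ⟨_, rfl⟩
  have hx0 : ∀ t, 0 ≤ ssw F w c0 * (b t / Real.log X ^ n) := by
    intro t
    have := ssw_nonneg F w c0
    positivity
  have hm0 : 0 ≤ m := by rw [hm]; exact PoJ_nonneg _ hx0 _
  have hm1 : m ≤ 1 := by rw [hm]; exact PoJ_le_one _ hx0 _
  obtain ⟨h1, h2⟩ := hX F Z Y K0 K H a b hab hdis hH hsz c0 hc0 v
  rw [← hm] at h1 h2
  obtain ⟨J, hJ⟩ : ∃ J, J = Ico K0 (K0 + K - H) := ⟨_, rfl⟩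
  have hJc : (J.card : ℝ) ≤ K := by
    rw [hJ, Nat.card_Ico]
    have : K0 + K - H - K0 ≤ K := by omega
    exact_mod_cast this
  have hvar := qvar (OmN w Z Y c0) J (Ft (fe F) a b v) m η 1 H hη0.le hm0 zero_le_one (by
      intro k hk
      rw [hJ, mem_Ico] at hk
      exact h1 k (by omega) (by omega)) (by
      intro k hk l hl hkl
      rw [hJ, mem_Ico] at hk hl
      exact h2 k l (by omega) hkl (by omega)) (by
      intro k _
      refine (Finset.sum_le_sum fun c _ => Ft_sq (fe F) a b v k c).trans (le_of_eq ?_)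
      rw [Finset.sum_const, nsmul_eq_mul, mul_one, one_mul])
  obtain ⟨W, hW⟩ : ∃ W : ℝ, W = ((OmN w Z Y c0).card : ℝ) := ⟨_, rfl⟩
  have hW0 : 0 ≤ W := by rw [hW]; exact Nat.cast_nonneg _
  have hHK : (H : ℝ) * κ ≤ t0 * K := by
    calc (H : ℝ) * κ ≤ t0 * Real.log X ^ n * κ := mul_le_mul_of_nonneg_right hH hκ0.le
      _ = t0 * (κ * Real.log X ^ n) := by ring
      _ ≤ t0 * K := mul_le_mul_of_nonneg_left hK ht0
  have hbound : (J.card : ℝ) ^ 2 * ((1 + 2 * m) * η) + J.card * (2 * H * (1 + 2 * m * η)) ≤ (δ * K) ^ 2 * ε := by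
    have hJ0 : (0 : ℝ) ≤ J.card := Nat.cast_nonneg _
    have a1 : (J.card : ℝ) ^ 2 * ((1 + 2 * m) * η) ≤ K ^ 2 * (3 * η) := by
      apply mul_le_mul (pow_le_pow_left₀ hJ0 hJc 2) _ (by positivity) (by positivity)
      nlinarith
    have a2 : (J.card : ℝ) * (2 * H * (1 + 2 * m * η)) ≤ K * (6 * H) := by
      apply mul_le_mul hJc _ (by positivity) hKp.le
      have h5 : m * η ≤ 1 := mul_le_one₀ hm1 hη0.le hη1
      have hH0 : (0 : ℝ) ≤ H := Nat.cast_nonneg _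
      nlinarith
    have a3 : 6 * (H : ℝ) ≤ δ ^ 2 * ε / 2 * K := by
      have h6 : 6 * (H : ℝ) * κ ≤ δ ^ 2 * ε / 2 * K * κ := by
        calc 6 * (H : ℝ) * κ = 6 * (H * κ) := by ring
          _ ≤ 6 * (t0 * K) := by linarith
          _ = 6 * t0 * K := by ring
          _ ≤ δ ^ 2 * ε / 2 * κ * K := mul_le_mul_of_nonneg_right hκ1 hKp.le
          _ = _ := by ring
      exact le_of_mul_le_mul_right h6 hκ0
    have a4 := mul_le_mul_of_nonneg_left hη2 (show (0 : ℝ) ≤ (K : ℝ) ^ 2 by positivity)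
    have a5 := mul_le_mul_of_nonneg_left a3 hKp.le
    nlinarith
  have hc := cheb (OmN w Z Y c0) (fun c => ∑ k ∈ J, (Ft (fe F) a b v k c - m)) (δ * K) ((δ * K) ^ 2 * ε * W)
    (by positivity) (hvar.trans (by rw [← hW]; exact mul_le_mul_of_nonneg_right hbound hW0))
  have e1 : (δ * (K : ℝ)) ^ 2 * ε * W / (δ * K) ^ 2 = ε * W := by field_simp
  rw [e1] at hc
  rw [← hW]
  refine le_trans ?_ hc
  have hsub : (OmN w Z Y c0).filter (fun c => δ * K < |∑ k ∈ Ico K0 (K0 + K - H), (Ft (fe F) a b v k c -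
      PoJ (fun t => ssw F w c * (b t / Real.log X ^ n)) {v})|) ⊆
      (OmN w Z Y c0).filter (fun c => δ * K < |∑ k ∈ J, (Ft (fe F) a b v k c - m)|) := by
    intro c hc
    rw [mem_filter] at hc ⊢
    refine ⟨hc.1, ?_⟩
    have h5 : ssw F w c = ssw F w c0 := by
      apply ssw_rs
      have h6 := hc.1
      unfold OmN at h6
      rw [mem_filter] at h6
      exact (rs_iff w c0 c).1 h6.2
    rw [h5] at hc
    rw [hm, hJ]
    exact hc.2
  exact_mod_cast card_le_card hsub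

end Pool.Agent.Q236.QG
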