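import Pool.Agent.Q236.RP.Spread

set_option autoImplicit false

/-!
# Sets of points without concentration, uniformly in the size of the points
-/

namespace Pool.Agent.Q236.QG

open Finset Filter
open Pool.Agent.H373R2.T7 Pool.Agent.TH464.PO Pool.Agent.Q236.RP

/-- **Sets without concentration** -/
theorem spr_expl (n : ℕ) (lam θ : ℝ) (hθ : 0 < θ) (C c w : ℕ) (hw : 1 ≤ w) (C2 : ℝ)
    (hC2 : C2 = 2 * (2 * c) + 1 + 2 * c * Real.exp (2 * c)) : ∀ᶠ X : ℕ in atTop, ∀ B : Finset ℕ, Spr n lam θ C X B →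
    (B.card : ℝ) ≤ lam * Real.log X ^ n ∧
    ∑ x ∈ prs B, (Eh c w (x.2 - x.1) - 1) ≤ (lam * Real.log X ^ n) ^ 2 * ((2 * C2 + 1) / (w : ℝ) ^ (1 : ℝ)) := by
  filter_upwards [exists_z θ hθ C c w, ev_log_ge 1] with X hX hL B hB
  obtain ⟨z, hz2, hzw, hz4, hzt⟩ := hX
  obtain ⟨hB1, hB2⟩ := hB
  obtain ⟨K, hK⟩ : ∃ K, K = lam * Real.log X ^ n := ⟨_, rfl⟩
  rw [← hK] at hB2 ⊢
  have hw0 : (0 : ℝ) < w := by exact_mod_cast hw
  have hcardB : (B.card : ℝ) ≤ K := by
    have h := hB2 1 le_rfl (by rw [Nat.cast_one]; exact Real.one_le_rpow hL hθ.le) 0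
    rw [Nat.totient_one, Nat.cast_one, mul_one] at h
    have e : B.filter (fun k => k ≡ 0 [MOD 1]) = B := by
      rw [filter_eq_self]
      intro k _
      exact Nat.modEq_one
    rwa [e] at h
  have hK0 : 0 ≤ K := (Nat.cast_nonneg _).trans hcardB
  refine ⟨hcardB, ?_⟩
  have h1 := Eh1_avg c w z hw K hK0 B (fun q hq1 hqz a => hB2 q hq1
    (le_trans (by exact_mod_cast hqz) hz4) a)
  have hprs : ((prs B).card : ℝ) ≤ K ^ 2 := by
    have h2 : ((prs B).card : ℝ) ≤ (B.card : ℝ) ^ 2 := by exact_mod_cast prs_card B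
    exact h2.trans (pow_le_pow_left₀ (Nat.cast_nonneg _) hcardB 2)
  have h2 : ∀ x ∈ prs B, Eh c w (x.2 - x.1) - 1 ≤ 2 * (Eh1 c w z (x.2 - x.1) - 1) + 1 / w := by
    intro x hx
    unfold prs at hx
    rw [mem_filter, mem_product] at hx
    obtain ⟨h, hh⟩ : ∃ h, h = x.2 - x.1 := ⟨_, rfl⟩
    have hh1 : 1 ≤ h := by omega
    rw [← hh]
    have h3 := Eh_split c w z h hz2 hh1
    have h4 : (h : ℝ) ≤ Real.log X ^ C := by
      have h5 := hB1 x.2 hx.1.2
      refine le_trans ?_ h5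
      have : h ≤ x.2 := by omega
      exact_mod_cast this
    have hh0 : (0 : ℝ) < h := by exact_mod_cast hh1
    have h5 : Real.log h ≤ C * Real.log (Real.log X) := by
      rw [← Real.log_pow]
      exact Real.log_le_log hh0 h4
    have hzr : (2 : ℝ) ≤ z := by exact_mod_cast hz2
    have hlz : 0 < Real.log z := Real.log_pos (by linarith)
    have h6 : (c : ℝ) * Real.log h / (z * Real.log z) ≤ 1 / (2 * w + 2) := by
      refine le_trans ?_ hzt
      apply div_le_div_of_nonneg_right _ (by positivity)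
      exact mul_le_mul_of_nonneg_left h5 (Nat.cast_nonneg c)
    obtain ⟨y, hy⟩ : ∃ y, y = (c : ℝ) * Real.log h / (z * Real.log z) := ⟨_, rfl⟩
    rw [← hy] at h3 h6
    have hy0 : 0 ≤ y := by
      rw [hy]
      have : 0 ≤ Real.log h := Real.log_natCast_nonneg h
      positivity
    have hw2 : 1 / (2 * (w : ℝ) + 2) ≤ 1 := by
      rw [div_le_one (by positivity)]
      linarith
    have h7 := Real.abs_exp_sub_one_le (x := y) (by rw [abs_of_nonneg hy0]; linarith)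
    rw [abs_of_nonneg hy0] at h7
    have h8 := (le_abs_self _).trans h7
    have h9 : 2 * y ≤ 1 / (w + 1) := by
      have : 2 * (1 / (2 * (w : ℝ) + 2)) = 1 / (w + 1) := by field_simp
      linarith
    have h10 : 1 / ((w : ℝ) + 1) ≤ 1 / w := by
      apply one_div_le_one_div_of_le hw0
      linarith
    have h11 : 1 / ((w : ℝ) + 1) ≤ 1 := by
      rw [div_le_one (by positivity)]
      linarith
    have hE := Eh1_ge c w z h
    have h12 : Eh1 c w z h * Real.exp y ≤ Eh1 c w z h * (1 + 1 / (w + 1)) :=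
      mul_le_mul_of_nonneg_left (by linarith) (by linarith)
    have h13 : (Eh1 c w z h - 1) * (1 / (w + 1)) ≤ (Eh1 c w z h - 1) * 1 :=
      mul_le_mul_of_nonneg_left h11 (by linarith)
    have h14 : Eh1 c w z h * (1 + 1 / (w + 1)) = Eh1 c w z h + (Eh1 c w z h - 1) * (1 / (w + 1)) + 1 / (w + 1) := by ring
    linarith
  have h3 : Real.exp ((2 * c : ℝ) / w) - 1 ≤ C2 / w := by
    rcases le_or_gt ((2 * c : ℕ) : ℝ) w with h | h
    · push_cast at h
      have hx : (2 * c : ℝ) / w ≤ 1 := by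
        rw [div_le_one hw0]
        exact h
      have h9 := Real.abs_exp_sub_one_le (x := (2 * c : ℝ) / w) (by rw [abs_of_nonneg (by positivity)]; exact hx)
      rw [abs_of_nonneg (by positivity : (0 : ℝ) ≤ (2 * c : ℝ) / w)] at h9
      have h10 := (le_abs_self _).trans h9
      refine h10.trans ?_
      rw [mul_div_assoc']
      apply div_le_div_of_nonneg_right _ hw0.le
      have : 0 ≤ 2 * (c : ℝ) * Real.exp (2 * c) := by positivity
      rw [hC2]
      linarith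
    · push_cast at h
      rw [le_div_iff₀ hw0]
      have hw1 : (1 : ℝ) ≤ w := by exact_mod_cast hw
      have h4 : (2 * c : ℝ) / w ≤ 2 * c := div_le_self (by positivity) hw1
      have h5 := Real.exp_le_exp.2 h4
      have h6 : 0 ≤ Real.exp ((2 * c : ℝ) / w) - 1 := by
        have : (0 : ℝ) ≤ (2 * c : ℝ) / w := by positivity
        linarith [Real.one_le_exp this]
      calc (Real.exp ((2 * c : ℝ) / w) - 1) * w ≤ Real.exp (2 * c) * (2 * c) := by
            apply mul_le_mul (by linarith) h.le hw0.le (Real.exp_pos _).le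
        _ ≤ C2 := by
            rw [hC2]
            have : (0 : ℝ) ≤ c := Nat.cast_nonneg c
            linarith
  calc ∑ x ∈ prs B, (Eh c w (x.2 - x.1) - 1) ≤ ∑ x ∈ prs B, (2 * (Eh1 c w z (x.2 - x.1) - 1) + 1 / w) :=
        Finset.sum_le_sum h2
    _ = 2 * ∑ x ∈ prs B, (Eh1 c w z (x.2 - x.1) - 1) + (prs B).card * (1 / w) := by
        rw [Finset.sum_add_distrib, ← Finset.mul_sum, Finset.sum_const, nsmul_eq_mul]
    _ ≤ 2 * (K ^ 2 * (C2 / w)) + K ^ 2 * (1 / w) := by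
        have h4 : K ^ 2 * (Real.exp (2 * c / w) - 1) ≤ K ^ 2 * (C2 / w) := mul_le_mul_of_nonneg_left h3 (by positivity)
        have h5 : ((prs B).card : ℝ) * (1 / w) ≤ K ^ 2 * (1 / w) := mul_le_mul_of_nonneg_right hprs (by positivity)
        linarith
    _ = K ^ 2 * ((2 * C2 + 1) / (w : ℝ) ^ (1 : ℝ)) := by
        rw [Real.rpow_one]
        ring

/-- uniformly in the exponent -/
theorem few_unif (n : ℕ) (lam θ : ℝ) (hθ : 0 < θ) : ∃ X0 : ℕ → ℕ,
    Few n lam (fun X B => ∃ C : ℕ, X0 C ≤ X ∧ Spr n lam θ C X B) := by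
  have h1 : ∀ C : ℕ, ∃ X0 : ℕ, ∀ X, X0 ≤ X → ∀ c ∈ range (C + 1), ∀ w ∈ Icc 1 C, ∀ B : Finset ℕ, Spr n lam θ C X B →
      (B.card : ℝ) ≤ lam * Real.log X ^ n ∧
      ∑ x ∈ prs B, (Eh c w (x.2 - x.1) - 1) ≤ (lam * Real.log X ^ n) ^ 2 *
        ((2 * (2 * (2 * c) + 1 + 2 * c * Real.exp (2 * c)) + 1) / (w : ℝ) ^ (1 : ℝ)) := by
    intro C
    have h2 : ∀ᶠ X : ℕ in atTop, ∀ c ∈ range (C + 1), ∀ w ∈ Icc 1 C, ∀ B : Finset ℕ, Spr n lam θ C X B →
      (B.card : ℝ) ≤ lam * Real.log X ^ n ∧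
      ∑ x ∈ prs B, (Eh c w (x.2 - x.1) - 1) ≤ (lam * Real.log X ^ n) ^ 2 *
        ((2 * (2 * (2 * c) + 1 + 2 * c * Real.exp (2 * c)) + 1) / (w : ℝ) ^ (1 : ℝ)) := by
      rw [Filter.eventually_all_finset]
      intro c _
      rw [Filter.eventually_all_finset]
      intro w hw
      rw [mem_Icc] at hw
      exact spr_expl n lam θ hθ C c w hw.1 _ rfl
    exact eventually_atTop.1 h2
  choose X0 hX0 using h1
  refine ⟨X0, ?_⟩
  intro c
  refine ⟨2 * (2 * (2 * c) + 1 + 2 * c * Real.exp (2 * c)) + 1, 1, by positivity, one_pos, ?_⟩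
  intro w hw
  obtain ⟨M, hM⟩ : ∃ M, M = max c w := ⟨_, rfl⟩
  filter_upwards [spr_expl n lam θ hθ M c w hw _ rfl, ev_log_ge 1] with X hX hL B hB
  obtain ⟨C, hC1, hC2⟩ := hB
  rcases Nat.lt_or_ge C M with h | h
  · refine hX B ⟨fun k hk => (hC2.1 k hk).trans (pow_le_pow_right₀ hL h.le), hC2.2⟩
  · exact hX0 C X hC1 c (mem_range.2 (by omega)) w (mem_Icc.2 ⟨hw, by omega⟩) B hC2

end Pool.Agent.Q236.QG
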