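import Pool.Agent.Q236.QG.Unif

set_option autoImplicit false

/-!
# The laws of the numbers of prime points in windows, on a residue class
-/

namespace Pool.Agent.Q236.QG

open Finset Filter Polynomial
open Pool.Agent.Q236.RP Pool.Agent.Q236.UL Pool.Agent.Q236.FL

variable {n : ℕ}

/-- the values of the polynomials -/
noncomputable def fe (F : Fin n → ℤ[X]) : Fin n → ℕ → ℤ := fun i k => (F i).eval (k : ℤ)

lemma card_mod (k H q a : ℕ) (hq : 1 ≤ q) :
    (((Ioc k (k + H)).filter (fun x => x ≡ a [MOD q])).card : ℝ) * q ≤ H + q := by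
  have h := Nat.Ioc_filter_modEq_card k (k + H) (r := q) (by omega) a
  have hq0 : (0 : ℚ) < q := by exact_mod_cast hq
  have h1 : ((((Ioc k (k + H)).filter (fun x => x ≡ a [MOD q])).card : ℤ) : ℚ) ≤ H / q + 1 := by
    rw [h]
    push_cast
    apply max_le
    · have h2 := Int.floor_le ((((k : ℚ) + H) - a) / q)
      have h3 := Int.lt_floor_add_one (((k : ℚ) - a) / q)
      have e : (((k : ℚ) + H) - a) / q = ((k : ℚ) - a) / q + H / q := by ring
      rw [e] at h2 ⊢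
      linarith
    · positivity
  have h2 : (((Ioc k (k + H)).filter (fun x => x ≡ a [MOD q])).card : ℚ) * q ≤ H + q := by
    have h3 := mul_le_mul_of_nonneg_right h1 hq0.le
    rw [add_mul, div_mul_cancel₀ _ hq0.ne', one_mul] at h3
    exact_mod_cast h3
  exact_mod_cast h2

lemma spr_two (hn : 1 ≤ n) (t0 : ℝ) (C X k l H : ℕ) (B : Finset ℕ)
    (hB : B ⊆ Ioc k (k + H) ∪ Ioc l (l + H)) (hH : (H : ℝ) ≤ t0 * Real.log X ^ n) (hL : 1 ≤ Real.log X)
    (hC : ∀ x ∈ B, (x : ℝ) ≤ Real.log X ^ C) : Spr n (2 * (t0 + 1)) 1 C X B := by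
  refine ⟨hC, ?_⟩
  intro q hq hqL a
  rw [Real.rpow_one] at hqL
  have h1 : B.filter (fun k => k ≡ a [MOD q]) ⊆ (Ioc k (k + H)).filter (fun k => k ≡ a [MOD q]) ∪
      (Ioc l (l + H)).filter (fun k => k ≡ a [MOD q]) := by
    rw [← filter_union]
    exact filter_subset_filter _ hB
  have h2 := (card_le_card h1).trans (card_union_le _ _)
  have h3 : ((B.filter (fun k => k ≡ a [MOD q])).card : ℝ) ≤
      (((Ioc k (k + H)).filter (fun k => k ≡ a [MOD q])).card : ℝ) +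
      (((Ioc l (l + H)).filter (fun k => k ≡ a [MOD q])).card : ℝ) := by exact_mod_cast h2
  have h4 := card_mod k H q a hq
  have h5 := card_mod l H q a hq
  have hq0 : (0 : ℝ) ≤ q := Nat.cast_nonneg q
  have hφ : (Nat.totient q : ℝ) ≤ q := by exact_mod_cast Nat.totient_le q
  have h6 : (q : ℝ) ≤ Real.log X ^ n := by
    refine hqL.trans ?_
    calc Real.log X = Real.log X ^ 1 := (pow_one _).symm
      _ ≤ Real.log X ^ n := pow_le_pow_right₀ hL hn
  calc ((B.filter (fun k => k ≡ a [MOD q])).card : ℝ) * (Nat.totient q : ℝ) ≤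
      ((B.filter (fun k => k ≡ a [MOD q])).card : ℝ) * q := mul_le_mul_of_nonneg_left hφ (Nat.cast_nonneg _)
    _ ≤ ((((Ioc k (k + H)).filter (fun k => k ≡ a [MOD q])).card : ℝ) +
      (((Ioc l (l + H)).filter (fun k => k ≡ a [MOD q])).card : ℝ)) * q := mul_le_mul_of_nonneg_right h3 hq0
    _ ≤ 2 * (H + q) := by linarith
    _ ≤ 2 * (t0 + 1) * Real.log X ^ n := by linarith

lemma small_w (hn : 1 ≤ n) (w : ℕ) (ε : ℝ) (hε : 0 < ε) : ∀ᶠ X : ℕ in atTop,
    2 * (primorial w : ℝ) * (gP w / Real.log X) ^ n ≤ ε := by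
  filter_upwards [ev_log_ge (gP w), ev_log_ge (gP w * (2 * (primorial w : ℝ) / ε + 1))] with X h1 h2
  have hg := gP_ge w
  have hL0 : 0 < Real.log (X : ℝ) := by linarith
  have h4 : (gP w / Real.log X) ^ n ≤ gP w / Real.log X := by
    have h5 : gP w / Real.log X ≤ 1 := by rw [div_le_one hL0]; exact h1
    calc (gP w / Real.log X) ^ n ≤ (gP w / Real.log X) ^ 1 := pow_le_pow_of_le_one (by positivity) h5 hn
      _ = _ := pow_one _
  have h5 : 2 * (primorial w : ℝ) * (gP w / Real.log X) ≤ ε := by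
    rw [mul_div_assoc', div_le_iff₀ hL0]
    have h6 := mul_le_mul_of_nonneg_left h2 hε.le
    have e2 : ε * (gP w * (2 * (primorial w : ℝ) / ε + 1)) = 2 * (primorial w : ℝ) * gP w + ε * gP w := by
      field_simp
    rw [e2] at h6
    have : 0 ≤ ε * gP w := by positivity
    linarith
  have h6 := mul_le_mul_of_nonneg_left h4 (show (0 : ℝ) ≤ 2 * (primorial w : ℝ) by positivity)
  linarith

lemma ssw_nonneg {d : ℕ} (F : Fin n → ℤ[X]) (w : ℕ) (c : Fin n → Fin d → ℤ) : 0 ≤ ssw F w c := by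
  unfold ssw
  have := gP_ge w
  apply mul_nonneg (by positivity)
  apply Finset.prod_nonneg
  intro p hp
  rw [mem_filter] at hp
  have hp0 : (0 : ℝ) < p := by exact_mod_cast hp.2.pos
  have h1 : (om (GG F c) p : ℝ) ≤ p := by exact_mod_cast om_le _ p
  have : (om (GG F c) p : ℝ) / p ≤ 1 := by rw [div_le_one hp0]; exact h1
  linarith

open Classical in
/-- **The joint law for windows** -/
theorem law_int {σ : Type*} [Fintype σ] [DecidableEq σ] (hn : 1 ≤ n) (t0 Λ η : ℝ) (ht0 : 0 ≤ t0) (hΛ : 0 ≤ Λ)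
    (hη : 0 < η) : ∃ d0 w0 : ℕ, 2 ≤ w0 ∧ ∀ w : ℕ, w0 ≤ w → ∀ C d : ℕ, d0 ≤ d → ∀ᶠ X : ℕ in atTop,
    ∀ (F : Fin n → ℤ[X]) (Z : Fin n → Fin d → ℤ) (Y : Fin n → Fin d → ℕ) (k l H : ℕ) (p q : σ → ℕ),
    (∀ t, q t ≤ H) → (∀ t u, t ≠ u → Disjoint (Ioc (p t) (p t + q t)) (Ioc (p u) (p u + q u))) →
    (∀ t, Ioc (p t) (p t + q t) ⊆ Ioc k (k + H) ∪ Ioc l (l + H)) → (H : ℝ) ≤ t0 * Real.log X ^ n →
    (∀ i, SZ C X (fe F i) (Z i) (Y i) (Ioc k (k + H) ∪ Ioc l (l + H))) → ∀ a : Fin n → Fin d → ℤ, ssw F w a ≤ Λ →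
    ∀ A : Finset (σ → ℕ),
    |(((OmN w Z Y a).filter (fun c => (fun t => Np (fe F) (Ioc (p t) (p t + q t)) c) ∈ A)).card : ℝ) -
      (OmN w Z Y a).card * PoJ (fun t => ssw F w a * (q t / Real.log X ^ n)) A| ≤ η * (OmN w Z Y a).card := by
  obtain ⟨X0, hSS⟩ := few_unif n (2 * (t0 + 1)) 1 one_pos
  obtain ⟨d0, w0, hw02, h⟩ := law_class (τ := σ) (n := n) hn (2 * (t0 + 1)) (Λ * t0 + 1) (η / 2) (by positivity)
    (by positivity) (by positivity) _ hSS
  refine ⟨d0, w0, hw02, ?_⟩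
  intro w hw C d hd
  obtain ⟨s, hs⟩ : ∃ s : ℝ, s = Fintype.card σ := ⟨_, rfl⟩
  have hs0 : 0 ≤ s := by rw [hs]; exact Nat.cast_nonneg _
  filter_upwards [h w hw C d hd, ev_log_ge 1, eventually_ge_atTop (X0 C), small_w hn w (min 1 (η / (4 * (s + 1))))
    (by positivity)] with X hX hL hX0 hsm F Z Y k l H p q hq hdis hsub hH hsz a ha A
  have hL0 : 0 < Real.log (X : ℝ) := by linarith
  have hAl : Al (fun t => Ioc (p t) (p t + q t)) ⊆ Ioc k (k + H) ∪ Ioc l (l + H) := by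
    intro x hx
    unfold Al at hx
    rw [mem_biUnion] at hx
    obtain ⟨t, _, ht⟩ := hx
    exact hsub t ht
  have hx0 : ∀ t, 0 ≤ ssw F w a * (q t / Real.log X ^ n) := by
    intro t
    have := ssw_nonneg F w a
    positivity
  have hclose : ∀ t, |xp (fe F) w X (Ioc (p t) (p t + q t)) a - ssw F w a * (q t / Real.log X ^ n)| ≤
      min 1 (η / (4 * (s + 1))) := by
    intro t
    exact (xp_interval F w X (p t) (q t) a hL0).trans hsm
  have hxpΛ : ∀ t, xp (fe F) w X (Ioc (p t) (p t + q t)) a ≤ Λ * t0 + 1 := by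
    intro t
    have h1 := (abs_le.1 ((hclose t).trans (min_le_left _ _))).2
    have h2 : (q t : ℝ) / Real.log X ^ n ≤ t0 := by
      rw [div_le_iff₀ (by positivity)]
      exact le_trans (by exact_mod_cast hq t) hH
    have h3 : ssw F w a * (q t / Real.log X ^ n) ≤ Λ * t0 := by
      apply mul_le_mul ha h2 _ hΛ
      positivity
    linarith
  have hlaw := hX (fe F) Z Y (fun t => Ioc (p t) (p t + q t)) hdis
    ⟨C, hX0, spr_two hn t0 C X k l H _ hAl hH hL (fun x hx => by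
      rcases Nat.eq_zero_or_pos n with h0 | h0
      · omega
      · exact (hsz ⟨0, h0⟩).pts x (hAl hx))⟩ (fun i => (hsz i).mono hAl) a hxpΛ A
  have hdiff := PoJ_diff (fun t => xp (fe F) w X (Ioc (p t) (p t + q t)) a)
    (fun t => ssw F w a * (q t / Real.log X ^ n)) (fun t => xp_nonneg (fe F) w X _ a hL0.le) hx0 A
  have hd2 : 2 * ∑ t, |xp (fe F) w X (Ioc (p t) (p t + q t)) a - ssw F w a * (q t / Real.log X ^ n)| ≤ η / 2 := by
    have h1 : ∑ t, |xp (fe F) w X (Ioc (p t) (p t + q t)) a - ssw F w a * (q t / Real.log X ^ n)| ≤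
        s * (η / (4 * (s + 1))) := by
      refine (Finset.sum_le_sum fun t _ => (hclose t).trans (min_le_right _ _)).trans ?_
      rw [Finset.sum_const, Finset.card_univ, nsmul_eq_mul, ← hs]
    have h2 : s * (η / (4 * (s + 1))) ≤ η / 4 := by
      rw [mul_div_assoc', div_le_div_iff₀ (by positivity) (by norm_num)]
      nlinarith
    linarith
  obtain ⟨N, hN⟩ : ∃ N : ℝ, N = (OmN w Z Y a).card := ⟨_, rfl⟩
  have hN0 : 0 ≤ N := by rw [hN]; exact Nat.cast_nonneg _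
  rw [← hN] at hlaw ⊢
  have h5 := mul_le_mul_of_nonneg_left (hdiff.trans hd2) hN0
  rw [← abs_of_nonneg hN0, ← abs_mul, abs_of_nonneg hN0, mul_sub] at h5
  obtain ⟨c1, c2⟩ := abs_le.1 hlaw
  obtain ⟨c3, c4⟩ := abs_le.1 h5
  rw [abs_le]
  constructor <;> linarith

end Pool.Agent.Q236.QG
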